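import Mathlib
import Pool.Agent.H533R3.SL.Cur

set_option autoImplicit false

/-! # Local bounds for the coefficients of `F (∑ U_j v_j)` -/

namespace Pool.Agent.TH409.SH

open Finset MvPolynomial Pool.Agent.H533R3.SL

variable {K : Type} [Field K]

/-- sum of the absolute values of the coefficients -/
noncomputable def l1 {τ : Type} (w : AbsoluteValue K ℝ) (G : MvPolynomial τ K) : ℝ :=
  ∑ α ∈ G.support, w (coeff α G)

variable (w : AbsoluteValue K ℝ)

theorem l1_nonneg {τ : Type} (G : MvPolynomial τ K) : 0 ≤ l1 w G :=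
  Finset.sum_nonneg fun _ _ => w.nonneg _

theorem l1_eq {τ : Type} (G : MvPolynomial τ K) (A : Finset (τ →₀ ℕ))
    (hA : G.support ⊆ A) : l1 w G = ∑ α ∈ A, w (coeff α G) := by
  unfold l1
  apply Finset.sum_subset hA
  intro α _ h
  rw [notMem_support_iff.1 h, map_zero]

theorem l1_zero {τ : Type} : l1 w (0 : MvPolynomial τ K) = 0 := by
  unfold l1
  simp

theorem l1_add {τ : Type} (G H : MvPolynomial τ K) : l1 w (G + H) ≤ l1 w G + l1 w H := by
  classical
  rw [l1_eq w (G + H) (G.support ∪ H.support) support_add,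
    l1_eq w G (G.support ∪ H.support) Finset.subset_union_left,
    l1_eq w H (G.support ∪ H.support) Finset.subset_union_right, ← Finset.sum_add_distrib]
  refine Finset.sum_le_sum fun α _ => ?_
  rw [coeff_add]
  exact w.add_le _ _

theorem l1_sum {τ ι : Type} (s : Finset ι) (f : ι → MvPolynomial τ K) :
    l1 w (∑ i ∈ s, f i) ≤ ∑ i ∈ s, l1 w (f i) := by
  classical
  induction s using Finset.induction_on with
  | empty => simp [l1_zero]
  | insert a s ha ih =>
    rw [Finset.sum_insert ha, Finset.sum_insert ha]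
    exact (l1_add w _ _).trans (by linarith)

theorem l1_monomial {τ : Type} (α : τ →₀ ℕ) (c : K) : l1 w (monomial α c) ≤ w c := by
  classical
  rw [l1_eq w (monomial α c) {α} support_monomial_subset]
  simp

theorem l1_mul {τ : Type} (G H : MvPolynomial τ K) : l1 w (G * H) ≤ l1 w G * l1 w H := by
  classical
  have h1 : G * H = ∑ α ∈ G.support, ∑ β ∈ H.support,
      monomial (α + β) (coeff α G * coeff β H) := by
    conv_lhs => rw [G.as_sum, H.as_sum]
    rw [Finset.sum_mul_sum]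
    refine Finset.sum_congr rfl fun α _ => Finset.sum_congr rfl fun β _ => ?_
    rw [monomial_mul]
  rw [h1]
  refine (l1_sum w _ _).trans ?_
  unfold l1
  rw [Finset.sum_mul_sum]
  refine Finset.sum_le_sum fun α _ => ?_
  refine (l1_sum w _ _).trans (Finset.sum_le_sum fun β _ => ?_)
  exact (l1_monomial w _ _).trans (le_of_eq (map_mul w _ _))

theorem l1_one {τ : Type} : l1 w (1 : MvPolynomial τ K) ≤ 1 := by
  have := l1_monomial (τ := τ) w 0 (1 : K)
  rw [w.map_one] at this
  exact this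

theorem l1_C {τ : Type} (c : K) : l1 w (C c : MvPolynomial τ K) ≤ w c :=
  l1_monomial w 0 c

theorem l1_X {τ : Type} (j : τ) : l1 w (X j : MvPolynomial τ K) ≤ 1 := by
  have := l1_monomial w (Finsupp.single j 1) (1 : K)
  rw [w.map_one] at this
  exact this

theorem l1_pow {τ : Type} (G : MvPolynomial τ K) (N : ℝ) (hG : l1 w G ≤ N) (e : ℕ) :
    l1 w (G ^ e) ≤ N ^ e := by
  have hN : 0 ≤ N := (l1_nonneg w G).trans hG
  induction e with
  | zero => simpa using l1_one w
  | succ e ih =>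
    rw [pow_succ, pow_succ]
    exact (l1_mul w _ _).trans (mul_le_mul ih hG (l1_nonneg w _) (pow_nonneg hN _))

theorem l1_prod {τ ι : Type} (s : Finset ι) (f : ι → MvPolynomial τ K) (N : ι → ℝ)
    (hf : ∀ i ∈ s, l1 w (f i) ≤ N i) : l1 w (∏ i ∈ s, f i) ≤ ∏ i ∈ s, N i := by
  classical
  induction s using Finset.induction_on with
  | empty => simpa using l1_one w
  | insert a s ha ih =>
    rw [Finset.prod_insert ha, Finset.prod_insert ha]
    have h1 := hf a (Finset.mem_insert_self _ _)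
    have h2 := ih fun i hi => hf i (Finset.mem_insert_of_mem hi)
    exact (l1_mul w _ _).trans (mul_le_mul h1 h2 (l1_nonneg w _) ((l1_nonneg w _).trans h1))

theorem coeff_le_l1 {τ : Type} (G : MvPolynomial τ K) (s : Finset (τ →₀ ℕ))
    (hs : s ⊆ G.support) : ∑ α ∈ s, w (coeff α G) ≤ l1 w G :=
  Finset.sum_le_sum_of_subset_of_nonneg hs fun _ _ _ => w.nonneg _

variable {n r : ℕ}

theorem homog_sumK {τ : Type} [Fintype τ] {G : MvPolynomial τ K} {d : ℕ}
    (hG : G.IsHomogeneous d) {α : τ →₀ ℕ} (hα : α ∈ G.support) : ∑ j, α j = d := by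
  have h1 := hG (mem_support_iff.1 hα)
  rw [Finsupp.weight_apply, Finsupp.sum_fintype _ _ (by simp)] at h1
  simpa using h1

theorem GU_homog (v : Fin r → Fin (n + 1) → K) (F : MvPolynomial (Fin (n + 1)) K) (e : ℕ)
    (hF : F.IsHomogeneous e) : (GU v F).IsHomogeneous e := by
  unfold GU
  have := hF.aeval (fun i => ∑ j, (C (v j i) * X j : MvPolynomial (Fin r) K)) (n := 1)
    (fun i => by
      refine IsHomogeneous.sum _ _ _ fun j _ => ?_
      simpa using (isHomogeneous_C (Fin r) (v j i)).mul (isHomogeneous_X K j))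
  simpa using this

theorem GU_expand (v : Fin r → Fin (n + 1) → K) (F : MvPolynomial (Fin (n + 1)) K) :
    GU v F = ∑ s ∈ F.support, C (coeff s F) *
      ∏ i, (∑ j, (C (v j i) * X j : MvPolynomial (Fin r) K)) ^ s i := by
  unfold GU
  rw [aeval_def, eval₂_eq']
  rfl

theorem lin_l1 (v : Fin r → Fin (n + 1) → K) (V : ℝ) (hv : ∀ j i, w (v j i) ≤ V)
    (i : Fin (n + 1)) : l1 w (∑ j, (C (v j i) * X j : MvPolynomial (Fin r) K)) ≤ r * V := by
  refine (l1_sum w _ _).trans ?_
  calc ∑ j : Fin r, l1 w (C (v j i) * X j) ≤ ∑ _j : Fin r, V := by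
        refine Finset.sum_le_sum fun j _ => ?_
        have h0 : 0 ≤ w (v j i) := w.nonneg _
        calc l1 w (C (v j i) * X j) ≤ l1 w (C (v j i) : MvPolynomial (Fin r) K) * l1 w (X j) :=
              l1_mul w _ _
          _ ≤ w (v j i) * 1 := mul_le_mul (l1_C w _) (l1_X w _) (l1_nonneg w _) h0
          _ ≤ V := by rw [mul_one]; exact hv j i
    _ = r * V := by simp

/-- archimedean bound -/
theorem GU_l1 (v : Fin r → Fin (n + 1) → K) (V : ℝ) (hV : 0 ≤ V) (hv : ∀ j i, w (v j i) ≤ V)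
    (F : MvPolynomial (Fin (n + 1)) K) (e : ℕ)
    (hF : F.IsHomogeneous e) : l1 w (GU v F) ≤ l1 w F * (r * V) ^ e := by
  rw [GU_expand]
  refine (l1_sum w _ _).trans ?_
  conv_rhs => unfold l1
  rw [Finset.sum_mul]
  refine Finset.sum_le_sum fun s hs' => ?_
  have hN : 0 ≤ (r : ℝ) * V := by positivity
  have h2 : l1 w (∏ i, (∑ j, (C (v j i) * X j : MvPolynomial (Fin r) K)) ^ s i) ≤
      ∏ i, ((r : ℝ) * V) ^ s i :=
    l1_prod w _ _ _ fun i _ => l1_pow w _ _ (lin_l1 w v V hv i) _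
  have h3 : ∏ i, ((r : ℝ) * V) ^ s i = (r * V) ^ e := by
    rw [Finset.prod_pow_eq_pow_sum, homog_sumK hF hs']
  rw [h3] at h2
  exact (l1_mul w _ _).trans (mul_le_mul (l1_C w _) h2 (l1_nonneg w _) (w.nonneg _))

/-! ### nonarchimedean -/

/-- all coefficients are bounded by `N` -/
def BL {τ : Type} (w : AbsoluteValue K ℝ) (N : ℝ) (G : MvPolynomial τ K) : Prop :=
  ∀ α, w (coeff α G) ≤ N

theorem na_sum {w : AbsoluteValue K ℝ} (hw : IsNonarchimedean w) {ι : Type} (s : Finset ι)
    (f : ι → K) (N : ℝ) (hN : 0 ≤ N) (hf : ∀ i ∈ s, w (f i) ≤ N) : w (∑ i ∈ s, f i) ≤ N := by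
  classical
  induction s using Finset.induction_on with
  | empty => simpa using hN
  | insert a s ha ih =>
    rw [Finset.sum_insert ha]
    refine (hw _ _).trans (max_le (hf a (Finset.mem_insert_self _ _)) ?_)
    exact ih fun i hi => hf i (Finset.mem_insert_of_mem hi)

variable {w} (hw : IsNonarchimedean w)

include hw

theorem BL_sum {τ ι : Type} (s : Finset ι) (f : ι → MvPolynomial τ K) (N : ℝ) (hN : 0 ≤ N)
    (hf : ∀ i ∈ s, BL w N (f i)) : BL w N (∑ i ∈ s, f i) := by
  intro α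
  rw [coeff_sum]
  exact na_sum hw s _ N hN fun i hi => hf i hi α

theorem BL_mul {τ : Type} (G H : MvPolynomial τ K) (N M : ℝ) (hN : 0 ≤ N) (hM : 0 ≤ M)
    (hG : BL w N G) (hH : BL w M H) : BL w (N * M) (G * H) := by
  classical
  intro α
  rw [coeff_mul]
  refine na_sum hw _ _ _ (mul_nonneg hN hM) fun p _ => ?_
  rw [map_mul]
  exact mul_le_mul (hG _) (hH _) (w.nonneg _) hN

omit hw in
theorem BL_C {τ : Type} (c : K) : BL w (w c) (C c : MvPolynomial τ K) := by
  classical
  intro α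
  rw [coeff_C]
  split_ifs
  · exact le_rfl
  · rw [map_zero]; exact w.nonneg _

omit hw in
theorem BL_X {τ : Type} (j : τ) : BL w 1 (X j : MvPolynomial τ K) := by
  classical
  intro α
  rw [coeff_X]
  split_ifs
  · rw [map_one]
  · rw [map_zero]; norm_num

theorem BL_pow {τ : Type} (G : MvPolynomial τ K) (N : ℝ) (hN : 0 ≤ N) (hG : BL w N G) (e : ℕ) :
    BL w (N ^ e) (G ^ e) := by
  induction e with
  | zero =>
    rw [pow_zero, pow_zero]
    have := BL_C (w := w) (τ := τ) 1
    rwa [map_one, map_one] at this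
  | succ e ih =>
    rw [pow_succ, pow_succ]
    exact BL_mul hw _ _ _ _ (pow_nonneg hN _) hN ih hG

theorem BL_prod {τ ι : Type} (s : Finset ι) (f : ι → MvPolynomial τ K) (N : ι → ℝ)
    (hN : ∀ i ∈ s, 0 ≤ N i)
    (hf : ∀ i ∈ s, BL w (N i) (f i)) : BL w (∏ i ∈ s, N i) (∏ i ∈ s, f i) := by
  classical
  induction s using Finset.induction_on with
  | empty =>
    rw [Finset.prod_empty, Finset.prod_empty]
    have := BL_C (w := w) (τ := τ) 1
    rwa [map_one, map_one] at this
  | insert a s ha ih =>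
    rw [Finset.prod_insert ha, Finset.prod_insert ha]
    exact BL_mul hw _ _ _ _ (hN a (Finset.mem_insert_self _ _))
      (Finset.prod_nonneg fun i hi => hN i (Finset.mem_insert_of_mem hi))
      (hf a (Finset.mem_insert_self _ _))
      (ih (fun i hi => hN i (Finset.mem_insert_of_mem hi))
        (fun i hi => hf i (Finset.mem_insert_of_mem hi)))

theorem lin_BL (v : Fin r → Fin (n + 1) → K) (V : ℝ) (hV : 0 ≤ V) (hv : ∀ j i, w (v j i) ≤ V)
    (i : Fin (n + 1)) : BL w V (∑ j, (C (v j i) * X j : MvPolynomial (Fin r) K)) := by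
  refine BL_sum hw _ _ _ hV fun j _ => ?_
  have := BL_mul hw _ _ (w (v j i)) 1 (w.nonneg _) zero_le_one (BL_C (τ := Fin r) (v j i)) (BL_X j)
  intro α
  refine (this α).trans ?_
  rw [mul_one]
  exact hv j i

/-- nonarchimedean bound -/
theorem GU_BL (v : Fin r → Fin (n + 1) → K) (V : ℝ) (hV : 0 ≤ V) (hv : ∀ j i, w (v j i) ≤ V)
    (F : MvPolynomial (Fin (n + 1)) K) (e : ℕ) (hF : F.IsHomogeneous e) (hF1 : BL w 1 F) :
    BL w (V ^ e) (GU v F) := by
  rw [GU_expand]
  refine BL_sum hw _ _ _ (pow_nonneg hV _) fun s hs => ?_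
  have h2 : BL w (∏ i, V ^ s i)
      (∏ i, (∑ j, (C (v j i) * X j : MvPolynomial (Fin r) K)) ^ s i) :=
    BL_prod hw _ _ _ (fun i _ => pow_nonneg hV _) fun i _ =>
      BL_pow hw _ _ hV (lin_BL hw v V hV hv i) _
  have h3 : ∏ i, V ^ s i = V ^ e := by
    rw [Finset.prod_pow_eq_pow_sum, homog_sumK hF hs]
  rw [h3] at h2
  have h4 := BL_mul hw _ _ _ _ (w.nonneg _) (pow_nonneg hV _) (BL_C (τ := Fin r) (coeff s F)) h2
  intro α
  refine (h4 α).trans ?_
  have h5 := hF1 s
  nlinarith [pow_nonneg hV e]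

end Pool.Agent.TH409.SH
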