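import Mathlib

set_option autoImplicit false

/-! # Products over all places -/

namespace Pool.Agent.TH409.SH

open Height Height.AdmissibleAbsValues Function

variable {K : Type} [Field K] [AdmissibleAbsValues K]

/-- product over all places (archimedean with multiplicity) -/
noncomputable def PP (f : AbsoluteValue K ℝ → ℝ) : ℝ :=
  (archAbsVal.map f).prod * ∏ᶠ w : nonarchAbsVal (K := K), f w.val

/-- the function is equal to one at almost all nonarchimedean places -/
def FM (f : AbsoluteValue K ℝ → ℝ) : Prop :=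
  (fun w : nonarchAbsVal (K := K) => f w.val).HasFiniteMulSupport

theorem FM_val {a : K} (ha : a ≠ 0) : FM (fun w : AbsoluteValue K ℝ => w a) := by
  unfold FM
  exact hasFiniteMulSupport ha

theorem FM_iSup {ι : Type} [Finite ι] {x : ι → K} (hx : x ≠ 0) :
    FM (fun w : AbsoluteValue K ℝ => ⨆ i, w (x i)) := by
  unfold FM
  have : Nonempty {j // x j ≠ 0} := nonempty_subtype.mpr <| ne_iff.mp hx
  suffices (fun v : nonarchAbsVal (K := K) ↦
      ⨆ i : {j // x j ≠ 0}, v.val (x i)).HasFiniteMulSupport by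
    convert! this with v
    obtain ⟨i, hi⟩ : ∃ j, x j ≠ 0 := Function.ne_iff.mp hx
    have : Nonempty ι := .intro i
    refine le_antisymm (ciSup_le fun j ↦ ?_) (ciSup_le fun ⟨j, hj⟩ ↦ Finite.le_ciSup_of_le j le_rfl)
    rcases eq_or_ne (x j) 0 with h | h
    · rw [h, v.val.map_zero]
      exact Real.iSup_nonneg' ⟨⟨i, hi⟩, v.val.nonneg ..⟩
    · exact Finite.le_ciSup_of_le ⟨j, h⟩ le_rfl
  fun_prop (disch := grind)

theorem FM_max (x : K) : FM (fun w : AbsoluteValue K ℝ => max (w x) 1) := by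
  unfold FM
  rcases eq_or_ne x 0 with rfl | hx
  · simp [HasFiniteMulSupport]
  fun_prop

theorem FM_mul {f g : AbsoluteValue K ℝ → ℝ} (hf : FM f) (hg : FM g) :
    FM (fun w => f w * g w) := by
  unfold FM at *
  exact HasFiniteMulSupport.mul hf hg

theorem FM_pow {f : AbsoluteValue K ℝ → ℝ} (hf : FM f) (e : ℕ) :
    FM (fun w => f w ^ e) := by
  unfold FM at *
  exact HasFiniteMulSupport.pow hf e

theorem PP_mul {f g : AbsoluteValue K ℝ → ℝ} (hf : FM f) (hg : FM g) :
    PP (fun w => f w * g w) = PP f * PP g := by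
  unfold PP FM at *
  rw [Multiset.prod_map_mul, finprod_mul_distrib hf hg]
  ring

theorem PP_pow {f : AbsoluteValue K ℝ → ℝ} (hf : FM f) (e : ℕ) :
    PP (fun w => f w ^ e) = PP f ^ e := by
  unfold PP FM at *
  rw [Multiset.prod_map_pow, mul_pow, finprod_pow hf]

theorem PP_val {a : K} (ha : a ≠ 0) : PP (fun w : AbsoluteValue K ℝ => w a) = 1 :=
  product_formula ha

theorem PP_max (t : K) : PP (fun w : AbsoluteValue K ℝ => max (w t) 1) = mulHeight₁ t := by
  rw [mulHeight₁_eq]
  rfl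

theorem PP_iSup {ι : Type} {x : ι → K} (hx : x ≠ 0) :
    PP (fun w : AbsoluteValue K ℝ => ⨆ i, w (x i)) = mulHeight x := by
  rw [mulHeight_eq hx]
  rfl

theorem PP_le (f g : AbsoluteValue K ℝ → ℝ) (c : ℝ) (hf : FM f) (hg : FM g)
    (h0 : ∀ w, 0 ≤ f w)
    (h1 : ∀ w ∈ (archAbsVal : Multiset (AbsoluteValue K ℝ)), f w ≤ c * g w)
    (h2 : ∀ w ∈ (nonarchAbsVal : Set (AbsoluteValue K ℝ)), f w ≤ g w) :
    PP f ≤ c ^ totalWeight K * PP g := by
  have h3 : c ^ totalWeight K * PP g =
      (archAbsVal.map fun w => c * g w).prod * ∏ᶠ w : nonarchAbsVal (K := K), g w.val := by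
    unfold PP
    rw [Multiset.prod_map_mul, ← mul_assoc]
    congr 2
    rw [totalWeight, Multiset.map_const', Multiset.prod_replicate]
  rw [h3]
  unfold PP
  have h4 : (archAbsVal.map f).prod ≤ (archAbsVal.map fun w => c * g w).prod :=
    Multiset.prod_map_le_prod_map₀ _ _ (fun w _ => h0 w) h1
  have h5 : ∏ᶠ w : nonarchAbsVal (K := K), f w.val ≤ ∏ᶠ w : nonarchAbsVal (K := K), g w.val :=
    finprod_le_finprod hf (fun w => h0 w.val) hg (fun w => h2 w.val w.2)
  refine mul_le_mul h4 h5 ?_ ?_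
  · exact finprod_nonneg fun w => h0 w.val
  · exact Multiset.prod_map_nonneg fun w hw => (h0 w).trans (h1 w hw)

end Pool.Agent.TH409.SH
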