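import Mathlib
import Pool.Agent.TH409.SH.Loc

set_option autoImplicit false

/-! # The gap principle for vanishing sums `∑ g_i t ^ e_i` over a field with heights -/

namespace Pool.Agent.TH409.SH

open Finset Height Height.AdmissibleAbsValues

section closed

variable {K : Type} [Field K]

/-- in a vanishing sum, a subset closed under having exponents at distance less than `L` vanishes,
provided that vanishing subsums can be cut at gaps of length `L` -/
theorem closed_sumK {ι : Type} [DecidableEq ι] (t : K) (L : ℕ) (hL : 1 ≤ L)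
    (g : ι → K) (e : ι → ℕ) (S0 : Finset ι)
    (cut : ∀ low high : Finset ι, low ⊆ S0 → high ⊆ S0 → ∀ E : ℕ, (∀ i ∈ low, e i ≤ E) →
      (∀ i ∈ high, E + L ≤ e i) →
      ∑ i ∈ low, t ^ (e i) * g i + ∑ i ∈ high, t ^ (e i) * g i = 0 →
      ∑ i ∈ low, t ^ (e i) * g i = 0) :
    ∀ (N : ℕ) (S T : Finset ι), S ⊆ S0 → S.card ≤ N → T ⊆ S →
    (∀ i ∈ T, ∀ j ∈ S, (e i < e j + L ∧ e j < e i + L) → j ∈ T) →
    ∑ i ∈ S, t ^ (e i) * g i = 0 → ∑ i ∈ T, t ^ (e i) * g i = 0 := by
  intro N
  induction N with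
  | zero =>
    intro S T _ hS hT _ _
    have : S = ∅ := Finset.card_eq_zero.1 (by omega)
    subst this
    rw [Finset.subset_empty.1 hT]
    simp
  | succ N ih =>
    -- first the case with an element of `T` below an element of `S \ T`
    have key : ∀ (S T : Finset ι), S ⊆ S0 → S.card ≤ N + 1 → T ⊆ S →
        (∀ i ∈ T, ∀ j ∈ S, (e i < e j + L ∧ e j < e i + L) → j ∈ T) →
        ∑ i ∈ S, t ^ (e i) * g i = 0 →
        (∃ i ∈ T, ∃ j ∈ S \ T, e i ≤ e j) → ∑ i ∈ T, t ^ (e i) * g i = 0 := by
      intro S T hS0 hcard hTS hcl hsum ⟨i0, hi0, j0, hj0, hij⟩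
      -- the largest element of `T` below `e j0`
      have hne1 : (T.filter (fun i => e i ≤ e j0)).Nonempty := ⟨i0, by simp [hi0, hij]⟩
      obtain ⟨i1, hi1, hmax⟩ := Finset.exists_max_image _ e hne1
      rw [Finset.mem_filter] at hi1
      have hne2 : ((S \ T).filter (fun j => e i1 ≤ e j)).Nonempty := ⟨j0, by
        rw [Finset.mem_filter]; exact ⟨hj0, hi1.2⟩⟩
      obtain ⟨j1, hj1, hmin⟩ := Finset.exists_min_image _ e hne2
      rw [Finset.mem_filter] at hj1
      have hj1S : j1 ∈ S := (Finset.mem_sdiff.1 hj1.1).1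
      have hj1T : j1 ∉ T := (Finset.mem_sdiff.1 hj1.1).2
      have hj1j0 : e j1 ≤ e j0 := hmin j0 (by rw [Finset.mem_filter]; exact ⟨hj0, hi1.2⟩)
      -- the gap
      have hgap : e i1 + L ≤ e j1 := by
        by_contra hcon
        push Not at hcon
        apply hj1T
        refine hcl i1 hi1.1 j1 hj1S ⟨?_, hcon⟩
        have h3 := hj1.2
        omega
      set low := S.filter (fun i => e i ≤ e i1) with hlow
      set high := S.filter (fun i => ¬ e i ≤ e i1) with hhigh
      have hlowS0 : low ⊆ S0 := (Finset.filter_subset _ _).trans hS0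
      have hhighS0 : high ⊆ S0 := (Finset.filter_subset _ _).trans hS0
      have hhighE : ∀ i ∈ high, e i1 + L ≤ e i := by
        intro i hi
        rw [hhigh, Finset.mem_filter] at hi
        obtain ⟨hiS, hi2⟩ := hi
        push Not at hi2
        by_cases hiT : i ∈ T
        · -- then `e i > e j0`
          have : ¬ e i ≤ e j0 := by
            intro h
            have := hmax i (by rw [Finset.mem_filter]; exact ⟨hiT, h⟩)
            omega
          omega
        · have := hmin i (by
            rw [Finset.mem_filter, Finset.mem_sdiff]; exact ⟨⟨hiS, hiT⟩, by omega⟩)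
          omega
      have hsplit : ∑ i ∈ low, t ^ (e i) * g i +
          ∑ i ∈ high, t ^ (e i) * g i = 0 := by
        rw [hlow, hhigh, Finset.sum_filter_add_sum_filter_not]
        exact hsum
      have hlow0 : ∑ i ∈ low, t ^ (e i) * g i = 0 :=
        cut low high hlowS0 hhighS0 (e i1)
          (fun i hi => (Finset.mem_filter.1 hi).2) hhighE hsplit
      have hhigh0 : ∑ i ∈ high, t ^ (e i) * g i = 0 := by
        rw [hlow0, zero_add] at hsplit
        exact hsplit
      have hcardS : low.card + high.card = S.card := by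
        rw [hlow, hhigh]
        exact Finset.card_filter_add_card_filter_not _
      have hlow1 : 1 ≤ low.card := Finset.card_pos.2 ⟨i1, by
        rw [hlow, Finset.mem_filter]; exact ⟨hTS hi1.1, le_rfl⟩⟩
      have hhigh1 : 1 ≤ high.card := Finset.card_pos.2 ⟨j1, by
        rw [hhigh, Finset.mem_filter]; exact ⟨hj1S, by omega⟩⟩
      have hT1 : ∑ i ∈ T.filter (fun i => e i ≤ e i1), t ^ (e i) * g i = 0 := by
        refine ih low _ hlowS0 (by omega) (Finset.filter_subset_filter _ hTS) ?_ hlow0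
        intro i hi j hj hr
        rw [Finset.mem_filter] at hi
        rw [hlow, Finset.mem_filter] at hj
        rw [Finset.mem_filter]
        exact ⟨hcl i hi.1 j hj.1 hr, hj.2⟩
      have hT2 : ∑ i ∈ T.filter (fun i => ¬ e i ≤ e i1), t ^ (e i) * g i = 0 := by
        refine ih high _ hhighS0 (by omega) (Finset.filter_subset_filter _ hTS) ?_ hhigh0
        intro i hi j hj hr
        rw [Finset.mem_filter] at hi
        rw [hhigh, Finset.mem_filter] at hj
        rw [Finset.mem_filter]
        exact ⟨hcl i hi.1 j hj.1 hr, hj.2⟩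
      rw [← Finset.sum_filter_add_sum_filter_not T (fun i => e i ≤ e i1), hT1, hT2, add_zero]
    intro S T hS0 hcard hTS hcl hsum
    rcases T.eq_empty_or_nonempty with hT | ⟨i0, hi0⟩
    · rw [hT]; simp
    rcases (S \ T).eq_empty_or_nonempty with hST | ⟨j0, hj0⟩
    · have : T = S := Finset.Subset.antisymm hTS (Finset.sdiff_eq_empty_iff_subset.1 hST)
      rw [this]; exact hsum
    rcases le_total (e i0) (e j0) with h | h
    · exact key S T hS0 hcard hTS hcl hsum ⟨i0, hi0, j0, hj0, h⟩
    · have h1 : ∑ i ∈ S \ T, t ^ (e i) * g i = 0 := by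
        refine key S (S \ T) hS0 hcard Finset.sdiff_subset ?_ hsum
          ⟨j0, hj0, i0, ?_, h⟩
        · intro i hi j hj hr
          rw [Finset.mem_sdiff] at hi ⊢
          refine ⟨hj, fun hjT => hi.2 (hcl j hjT i hi.1 ⟨hr.2, hr.1⟩)⟩
        · rw [Finset.sdiff_sdiff_eq_self hTS]
          exact hi0
      have h2 := Finset.sum_sdiff hTS (f := fun i => t ^ (e i) * g i)
      rw [h1, zero_add] at h2
      rw [h2]
      exact hsum

end closed

variable {K : Type} [Field K] [AdmissibleAbsValues K]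

/-- **Gap principle**: a vanishing sum can be cut at a gap of length `L`, if the height of `t ^ L`
exceeds the height of the coefficients. -/
theorem cutK {ι : Type} [DecidableEq ι] (t : K) (ht : t ≠ 0) (L : ℕ)
    (g : ι → K) (e : ι → ℕ) (S0 : Finset ι) (N : AbsoluteValue K ℝ → ℝ) (hN : FM N)
    (hN0 : ∀ w, 0 ≤ N w) (c : ℝ)
    (harch : ∀ w ∈ (archAbsVal : Multiset (AbsoluteValue K ℝ)), ∑ i ∈ S0, w (g i) ≤ c * N w)
    (hnon : ∀ w ∈ (nonarchAbsVal : Set (AbsoluteValue K ℝ)), ∀ i ∈ S0, w (g i) ≤ N w)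
    (hlt : c ^ totalWeight K * PP N < mulHeight₁ t ^ L)
    (low high : Finset ι) (hlo : low ⊆ S0) (hhi : high ⊆ S0) (E : ℕ)
    (hlow : ∀ i ∈ low, e i ≤ E) (hhigh : ∀ i ∈ high, E + L ≤ e i)
    (hsum : ∑ i ∈ low, t ^ (e i) * g i + ∑ i ∈ high, t ^ (e i) * g i = 0) :
    ∑ i ∈ low, t ^ (e i) * g i = 0 := by
  by_contra hne
  set a : K := ∑ i ∈ low, (t⁻¹) ^ (E - e i) * g i with ha
  have hti : t⁻¹ ≠ 0 := inv_ne_zero ht
  have hE : t ^ E * a = ∑ i ∈ low, t ^ (e i) * g i := by
    rw [ha, Finset.mul_sum]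
    refine Finset.sum_congr rfl fun i hi => ?_
    have h1 : t ^ E = t ^ (e i) * t ^ (E - e i) := by
      rw [← pow_add, Nat.add_sub_cancel' (hlow i hi)]
    rw [h1, inv_pow]
    field_simp
  have ha0 : a ≠ 0 := by
    intro h
    apply hne
    rw [← hE, h, mul_zero]
  have ha2 : a = - ∑ i ∈ high, t ^ (e i - E) * g i := by
    have h1 : t ^ E * ∑ i ∈ high, t ^ (e i - E) * g i = ∑ i ∈ high, t ^ (e i) * g i := by
      rw [Finset.mul_sum]
      refine Finset.sum_congr rfl fun i hi => ?_
      have := hhigh i hi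
      rw [← mul_assoc, ← pow_add, Nat.add_sub_cancel' (by omega)]
    have h2 : t ^ E * a = t ^ E * (- ∑ i ∈ high, t ^ (e i - E) * g i) := by
      rw [mul_neg, h1, hE]
      linear_combination hsum
    exact mul_left_cancel₀ (pow_ne_zero E ht) h2
  -- the bound at each place
  have hbig : ∀ w : AbsoluteValue K ℝ, 1 ≤ w t → w (t⁻¹) ≤ 1 := by
    intro w h
    rw [map_inv₀]
    exact inv_le_one_of_one_le₀ h
  have hA1 : ∀ w : AbsoluteValue K ℝ, 1 ≤ w t → ∀ i ∈ low,
      w ((t⁻¹) ^ (E - e i) * g i) ≤ w (g i) := by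
    intro w h i _
    rw [map_mul, map_pow]
    exact mul_le_of_le_one_left (w.nonneg _) (pow_le_one₀ (w.nonneg _) (hbig w h))
  have hA2 : ∀ w : AbsoluteValue K ℝ, w t ≤ 1 → ∀ i ∈ high,
      w (t ^ (e i - E) * g i) ≤ w t ^ L * w (g i) := by
    intro w h i hi
    rw [map_mul, map_pow]
    refine mul_le_mul_of_nonneg_right ?_ (w.nonneg _)
    have := hhigh i hi
    exact pow_le_pow_of_le_one (w.nonneg _) h (by omega)
  have hfin : ∀ w : AbsoluteValue K ℝ, ∀ M : ℝ, (1 ≤ w t → w a ≤ M) →
      (w t ≤ 1 → w a ≤ w t ^ L * M) → w a * max (w (t⁻¹)) 1 ^ L ≤ M := by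
    intro w M h1 h2
    have hwt : 0 < w t := w.pos ht
    rcases le_total 1 (w t) with h | h
    · rw [max_eq_right (hbig w h), one_pow, mul_one]
      exact h1 h
    · have h3 : 1 ≤ w (t⁻¹) := by
        rw [map_inv₀]
        exact (one_le_inv₀ hwt).2 h
      rw [max_eq_left h3, map_inv₀, inv_pow]
      have h4 := h2 h
      rw [← div_eq_mul_inv, div_le_iff₀ (pow_pos hwt L)]
      linarith
  have hmain := PP_le (fun w : AbsoluteValue K ℝ => w a * max (w (t⁻¹)) 1 ^ L) N c
    (FM_mul (FM_val ha0) (FM_pow (FM_max _) L)) hN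
    (fun w => mul_nonneg (w.nonneg _) (pow_nonneg (le_trans zero_le_one (le_max_right _ _)) _))
    (by
      intro w hw
      refine hfin w _ (fun h => ?_) (fun h => ?_)
      · calc w a ≤ ∑ i ∈ low, w ((t⁻¹) ^ (E - e i) * g i) := w.sum_le _ _
          _ ≤ ∑ i ∈ low, w (g i) := Finset.sum_le_sum (hA1 w h)
          _ ≤ ∑ i ∈ S0, w (g i) :=
              Finset.sum_le_sum_of_subset_of_nonneg hlo fun i _ _ => w.nonneg _
          _ ≤ c * N w := harch w hw
      · rw [ha2, map_neg_eq_map]
        calc w (∑ i ∈ high, t ^ (e i - E) * g i) ≤ ∑ i ∈ high, w (t ^ (e i - E) * g i) :=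
              w.sum_le _ _
          _ ≤ ∑ i ∈ high, w t ^ L * w (g i) := Finset.sum_le_sum (hA2 w h)
          _ = w t ^ L * ∑ i ∈ high, w (g i) := by rw [Finset.mul_sum]
          _ ≤ w t ^ L * ∑ i ∈ S0, w (g i) := by
              refine mul_le_mul_of_nonneg_left ?_ (pow_nonneg (w.nonneg _) _)
              exact Finset.sum_le_sum_of_subset_of_nonneg hhi fun i _ _ => w.nonneg _
          _ ≤ w t ^ L * (c * N w) :=
              mul_le_mul_of_nonneg_left (harch w hw) (pow_nonneg (w.nonneg _) _))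
    (by
      intro w hw
      have hna : IsNonarchimedean w := isNonarchimedean w hw
      have hsumle : ∀ (s : Finset ι) (f : ι → K) (M : ℝ), 0 ≤ M → (∀ i ∈ s, w (f i) ≤ M) →
          w (∑ i ∈ s, f i) ≤ M := by
        intro s f M hM hf
        induction s using Finset.induction_on with
        | empty => simpa using hM
        | insert a s ha ih =>
          rw [Finset.sum_insert ha]
          refine (hna _ _).trans (max_le (hf a (Finset.mem_insert_self _ _)) ?_)
          exact ih fun i hi => hf i (Finset.mem_insert_of_mem hi)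
      refine hfin w _ (fun h => ?_) (fun h => ?_)
      · exact hsumle _ _ _ (hN0 w) fun i hi => (hA1 w h i hi).trans (hnon w hw i (hlo hi))
      · rw [ha2, map_neg_eq_map]
        refine hsumle _ _ _ (mul_nonneg (pow_nonneg (w.nonneg _) _) (hN0 w)) fun i hi => ?_
        exact (hA2 w h i hi).trans
          (mul_le_mul_of_nonneg_left (hnon w hw i (hhi hi)) (pow_nonneg (w.nonneg _) _)))
  rw [PP_mul (FM_val ha0) (FM_pow (FM_max _) L), PP_val ha0, one_mul, PP_pow (FM_max _), PP_max,
    mulHeight₁_inv] at hmain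
  exact absurd hmain (not_le.2 hlt)

end Pool.Agent.TH409.SH
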