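import Mathlib
import Pool.Agent.TH409.SH.Gap
import Pool.Agent.TH409.SH.Coef
import Pool.Agent.H458.Sp.Reduce

set_option autoImplicit false

/-! # Sparse points over a field with heights: a rational curve, or a small height -/

namespace Pool.Agent.TH409.SH

open Finset Height Height.AdmissibleAbsValues Pool.Agent.H533R3.SL MvPolynomial

variable {n r : ℕ}

/-- exponent of a monomial -/
def ex (m : Fin r → ℕ) (α : Fin r →₀ ℕ) : ℕ := ∑ j, α j * m j

theorem ex_int (m : Fin r → ℕ) (α : Fin r →₀ ℕ) :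
    (ex m α : ℤ) = ∑ j, (α j : ℤ) * (m j : ℤ) := by
  unfold ex
  push_cast
  rfl

theorem aeval_cur2 {K : Type} [Field K] (t : K) (m lam : Fin r → ℕ) (v : Fin r → Fin (n + 1) → K)
    (F : MvPolynomial (Fin (n + 1)) K) :
    aeval (cur (fun j i => t ^ (m j) * v j i) lam) F =
      ∑ α ∈ (GU v F).support, Polynomial.C (t ^ (ex m α) * coeff α (GU v F)) *
        Polynomial.X ^ (ex lam α) := by
  have h1 : aeval (fun j => Polynomial.C (t ^ (m j)) * Polynomial.X ^ (lam j))
      (GU v F) = aeval (cur (fun j i => t ^ (m j) * v j i) lam) F := by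
    unfold GU
    rw [MvPolynomial.comp_aeval_apply]
    congr 2
    funext i
    unfold cur
    rw [map_sum]
    refine Finset.sum_congr rfl fun j _ => ?_
    rw [map_mul, aeval_X, MvPolynomial.algHom_C, Polynomial.C_mul]
    show Polynomial.C (v j i) * _ = _
    ring
  rw [← h1, aeval_def, eval₂_eq']
  refine Finset.sum_congr rfl fun α _ => ?_
  have h2 : ∏ j, (Polynomial.C (t ^ (m j)) * Polynomial.X ^ (lam j)) ^ (α j) =
      Polynomial.C (t ^ (ex m α)) * Polynomial.X ^ (ex lam α) := by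
    simp_rw [mul_pow]
    rw [Finset.prod_mul_distrib]
    unfold ex
    rw [← Finset.prod_pow_eq_pow_sum, ← Finset.prod_pow_eq_pow_sum, map_prod]
    congr 1
    · refine Finset.prod_congr rfl fun j _ => ?_
      rw [← map_pow, ← pow_mul, mul_comm]
    · refine Finset.prod_congr rfl fun j _ => ?_
      rw [← pow_mul, mul_comm]
  rw [h2, Polynomial.C_mul]
  show Polynomial.C (coeff α (GU v F)) * _ = _
  ring

theorem aeval_pt {K : Type} [Field K] (t : K) (m : Fin r → ℕ) (v : Fin r → Fin (n + 1) → K)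
    (F : MvPolynomial (Fin (n + 1)) K) :
    aeval (fun i => ∑ j, t ^ (m j) * v j i) F =
      ∑ α ∈ (GU v F).support, t ^ (ex m α) * coeff α (GU v F) := by
  have h1 := congrArg (Polynomial.aeval (1 : K)) (aeval_cur2 t m m v F)
  rw [MvPolynomial.comp_aeval_apply, map_sum] at h1
  have h2 : (fun i => (Polynomial.aeval (1 : K)) (cur (fun j i => t ^ (m j) * v j i) m i)) =
      fun i => ∑ j, t ^ (m j) * v j i := by
    funext i
    rw [Polynomial.coe_aeval_eq_eval, cur_eval_one]
  rw [h2] at h1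
  rw [h1]
  refine Finset.sum_congr rfl fun α _ => ?_
  simp

variable {K : Type} [Field K] [AdmissibleAbsValues K]

/-- if the direction `lam` respects all clusters, the deformed vector is a zero of `F` -/
theorem curve_zeroK (t : K) (ht : t ≠ 0) (L : ℕ) (hL : 1 ≤ L) (m lam : Fin r → ℕ)
    (v : Fin r → Fin (n + 1) → K) (hv0 : (fun q : Fin r × Fin (n + 1) => v q.1 q.2) ≠ 0)
    (F : MvPolynomial (Fin (n + 1)) K) (e : ℕ) (hF : F.IsHomogeneous e) (A : ℝ)
    (harch : ∀ w ∈ (archAbsVal : Multiset (AbsoluteValue K ℝ)), l1 w F ≤ A)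
    (hnon : ∀ w ∈ (nonarchAbsVal : Set (AbsoluteValue K ℝ)), BL w 1 F)
    (hlt : (A * r ^ e) ^ totalWeight K *
      mulHeight (fun q : Fin r × Fin (n + 1) => v q.1 q.2) ^ e < mulHeight₁ t ^ L)
    (hlam : ∀ α ∈ (GU v F).support, ∀ β ∈ (GU v F).support,
      (ex m α < ex m β + L ∧ ex m β < ex m α + L) → ex lam α = ex lam β)
    (h0 : aeval (fun i => ∑ j, t ^ (m j) * v j i) F = 0) :
    aeval (cur (fun j i => t ^ (m j) * v j i) lam) F = 0 := by
  classical
  set V : AbsoluteValue K ℝ → ℝ := fun w => ⨆ q : Fin r × Fin (n + 1), w (v q.1 q.2) with hV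
  have hVle : ∀ (w : AbsoluteValue K ℝ) j i, w (v j i) ≤ V w := fun w j i =>
    Finite.le_ciSup_of_le (f := fun q : Fin r × Fin (n + 1) => w (v q.1 q.2)) (j, i) le_rfl
  have hV0 : ∀ w : AbsoluteValue K ℝ, 0 ≤ V w := fun w =>
    Real.iSup_nonneg_of_nonnegHomClass w _
  have hFMV : FM V := FM_iSup hv0
  have hcut := cutK t ht L (fun α => coeff α (GU v F)) (ex m) (GU v F).support
    (fun w => V w ^ e) (FM_pow hFMV e) (fun w => pow_nonneg (hV0 w) _) (A * r ^ e)
    (by
      intro w hw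
      have h1 := GU_l1 w v (V w) (hV0 w) (hVle w) F e hF
      have h2 := harch w hw
      have h3 : (0 : ℝ) ≤ (r * V w) ^ e := pow_nonneg (mul_nonneg (Nat.cast_nonneg _) (hV0 w)) _
      calc ∑ α ∈ (GU v F).support, w (coeff α (GU v F)) ≤ l1 w F * (r * V w) ^ e := h1
        _ ≤ A * (r * V w) ^ e := mul_le_mul_of_nonneg_right h2 h3
        _ = A * r ^ e * V w ^ e := by rw [mul_pow]; ring)
    (by
      intro w hw α _
      exact GU_BL (isNonarchimedean w hw) v (V w) (hV0 w) (hVle w) F e hF (hnon w hw) α)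
    (by
      rw [PP_pow hFMV, hV, PP_iSup hv0]
      exact hlt)
  rw [aeval_pt] at h0
  rw [aeval_cur2]
  ext w
  rw [Polynomial.finsetSum_coeff, Polynomial.coeff_zero]
  simp_rw [Polynomial.coeff_C_mul_X_pow]
  rw [← Finset.sum_filter]
  refine closed_sumK t L hL (fun α => coeff α (GU v F)) (ex m) (GU v F).support hcut
    (GU v F).support.card (GU v F).support
    ((GU v F).support.filter (fun α => w = ex lam α)) (Finset.Subset.refl _) le_rfl
    (Finset.filter_subset _ _) ?_ h0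
  intro α hα β hβ hr
  rw [Finset.mem_filter] at hα ⊢
  exact ⟨hβ, hα.2.trans (hlam α hα.1 β hβ hr)⟩

/-- height of a combination -/
theorem height_comb (t : K) (a : Fin r → ℕ) (E : ℕ) (ha : ∀ j, a j ≤ E)
    (v : Fin r → Fin (n + 1) → K) (J : Finset (Fin r))
    (hy : (fun i => ∑ j ∈ J, t ^ (a j) * v j i) ≠ 0) :
    mulHeight (fun i => ∑ j ∈ J, t ^ (a j) * v j i) ≤ (r : ℝ) ^ totalWeight K *
      (mulHeight (fun q : Fin r × Fin (n + 1) => v q.1 q.2) * mulHeight₁ t ^ E) := by
  classical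
  have hv0 : (fun q : Fin r × Fin (n + 1) => v q.1 q.2) ≠ 0 := by
    intro h
    apply hy
    funext i
    refine Finset.sum_eq_zero fun j _ => ?_
    have := congrFun h (j, i)
    simp only [Pi.zero_apply] at this
    rw [this, mul_zero]
  set V : AbsoluteValue K ℝ → ℝ := fun w => ⨆ q : Fin r × Fin (n + 1), w (v q.1 q.2) with hV
  have hVle : ∀ (w : AbsoluteValue K ℝ) j i, w (v j i) ≤ V w := fun w j i =>
    Finite.le_ciSup_of_le (f := fun q : Fin r × Fin (n + 1) => w (v q.1 q.2)) (j, i) le_rfl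
  have hV0 : ∀ w : AbsoluteValue K ℝ, 0 ≤ V w := fun w =>
    Real.iSup_nonneg_of_nonnegHomClass w _
  have hterm : ∀ (w : AbsoluteValue K ℝ) (j : Fin r) (i : Fin (n + 1)),
      w (t ^ (a j) * v j i) ≤ V w * max (w t) 1 ^ E := by
    intro w j i
    rw [map_mul, map_pow, mul_comm]
    refine mul_le_mul (hVle w j i) ?_ (pow_nonneg (w.nonneg _) _) (hV0 w)
    calc w t ^ (a j) ≤ max (w t) 1 ^ (a j) := pow_le_pow_left₀ (w.nonneg _) (le_max_left _ _) _
      _ ≤ max (w t) 1 ^ E := pow_le_pow_right₀ (le_max_right _ _) (ha j)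
  have hB0 : ∀ w : AbsoluteValue K ℝ, 0 ≤ V w * max (w t) 1 ^ E := fun w =>
    mul_nonneg (hV0 w) (pow_nonneg (le_trans zero_le_one (le_max_right _ _)) _)
  have hmain := PP_le (fun w : AbsoluteValue K ℝ => ⨆ i, w (∑ j ∈ J, t ^ (a j) * v j i))
    (fun w => V w * max (w t) 1 ^ E) r (FM_iSup hy) (FM_mul (FM_iSup hv0) (FM_pow (FM_max t) E))
    (fun w => Real.iSup_nonneg_of_nonnegHomClass w _)
    (by
      intro w _
      refine ciSup_le fun i => ?_
      calc w (∑ j ∈ J, t ^ (a j) * v j i) ≤ ∑ j ∈ J, w (t ^ (a j) * v j i) := w.sum_le _ _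
        _ ≤ ∑ _j ∈ J, V w * max (w t) 1 ^ E := Finset.sum_le_sum fun j _ => hterm w j i
        _ ≤ ∑ _j : Fin r, V w * max (w t) 1 ^ E :=
            Finset.sum_le_sum_of_subset_of_nonneg (Finset.subset_univ _) fun j _ _ => hB0 w
        _ = r * (V w * max (w t) 1 ^ E) := by
            rw [Finset.sum_const, Finset.card_univ, Fintype.card_fin, nsmul_eq_mul])
    (by
      intro w hw
      refine ciSup_le fun i => ?_
      exact na_sum (isNonarchimedean w hw) J _ _ (hB0 w) fun j _ => hterm w j i)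
  rw [PP_iSup hy, PP_mul (FM_iSup hv0) (FM_pow (FM_max t) E), PP_pow (FM_max t), PP_max,
    PP_iSup hv0] at hmain
  exact hmain

end Pool.Agent.TH409.SH
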