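import Mathlib
import Pool.Agent.TH409.SH.Main
import Pool.Agent.H458.Sp.Expand
import Pool.Agent.H533R3.SL.Unif

set_option autoImplicit false

/-! # Number fields: local bounds, the Northcott property, and the two main applications -/

namespace Pool.Agent.TH409.SH

open Finset Height Height.AdmissibleAbsValues Pool.Agent.H533R3.SL MvPolynomial NumberField
  Pool.Agent.H458.Sp

variable {n r : ℕ}

theorem arch_le_hs {K : Type} [Field K] [NumberField K] (w : AbsoluteValue K ℝ)
    (hw : w ∈ (archAbsVal : Multiset (AbsoluteValue K ℝ))) (a : 𝓞 K) :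
    w (algebraMap (𝓞 K) K a) ≤ hs a := by
  have h1 : IsInfinitePlace w := mem_multisetInfinitePlace.1 hw
  obtain ⟨v, rfl⟩ := (isInfinitePlace_iff w).1 h1
  have h2 := InfinitePlace.norm_embedding_eq v (algebraMap (𝓞 K) K a)
  have h3 : (v.val : AbsoluteValue K ℝ) (algebraMap (𝓞 K) K a) = v (algebraMap (𝓞 K) K a) := rfl
  rw [h3, ← h2]
  exact norm_embedding_le_house _ _

theorem nonarch_le_one {K : Type} [Field K] [NumberField K] (w : AbsoluteValue K ℝ)
    (hw : w ∈ (nonarchAbsVal : Set (AbsoluteValue K ℝ))) (a : 𝓞 K) :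
    w (algebraMap (𝓞 K) K a) ≤ 1 := by
  obtain ⟨v, rfl⟩ := hw
  exact FinitePlace.norm_le_one K v a

theorem l1_le_nrm {K : Type} [Field K] [NumberField K] (w : AbsoluteValue K ℝ)
    (hw : w ∈ (archAbsVal : Multiset (AbsoluteValue K ℝ)))
    (F : MvPolynomial (Fin (n + 1)) (𝓞 K)) :
    l1 w (MvPolynomial.map (algebraMap (𝓞 K) K) F) ≤ nrm F := by
  classical
  rw [l1_eq w _ F.support (MvPolynomial.support_map_subset _ _)]
  unfold nrm
  refine Finset.sum_le_sum fun α _ => ?_
  rw [coeff_map]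
  exact arch_le_hs w hw _

theorem BL_map {K : Type} [Field K] [NumberField K] (w : AbsoluteValue K ℝ)
    (hw : w ∈ (nonarchAbsVal : Set (AbsoluteValue K ℝ)))
    (F : MvPolynomial (Fin (n + 1)) (𝓞 K)) :
    BL w 1 (MvPolynomial.map (algebraMap (𝓞 K) K) F) := by
  intro α
  rw [coeff_map]
  exact nonarch_le_one w hw _

/-- the hypotheses of the dichotomy, for forms over the integers of a subfield -/
theorem hyps {k : Type} [Field k] [NumberField k] {K : Type} [Field K] [NumberField K]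
    [Algebra k K] (FF : Set (MvPolynomial (Fin (n + 1)) (𝓞 k))) (d : ℕ) (A : ℝ)
    (hF : ∀ F ∈ FF, (∃ e, e ≤ d ∧ F.IsHomogeneous e) ∧ nrm F ≤ A) :
    ∀ F' ∈ (MvPolynomial.map ((algebraMap k K).comp (algebraMap (𝓞 k) k))) '' FF,
      (∃ e, e ≤ d ∧ F'.IsHomogeneous e) ∧
      (∀ w ∈ (archAbsVal : Multiset (AbsoluteValue K ℝ)), l1 w F' ≤ A) ∧
      (∀ w ∈ (nonarchAbsVal : Set (AbsoluteValue K ℝ)), BL w 1 F') := by
  rintro _ ⟨F, hFF, rfl⟩
  obtain ⟨⟨e, hed, hFe⟩, hA⟩ := hF F hFF
  have h1 : MvPolynomial.map ((algebraMap k K).comp (algebraMap (𝓞 k) k)) F =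
      MvPolynomial.map (algebraMap (𝓞 K) K)
        (MvPolynomial.map (algebraMap (𝓞 k) (𝓞 K)) F) := by
    rw [MvPolynomial.map_map]
    rfl
  refine ⟨⟨e, hed, hFe.map _⟩, fun w hw => ?_, fun w hw => ?_⟩
  · rw [h1]
    exact (l1_le_nrm w hw _).trans ((nrm_map_le F).trans hA)
  · rw [h1]
    exact BL_map w hw _

/-- the logarithmic form of the bound -/
theorem log_bound {K : Type} [Field K] [NumberField K] (d : ℕ) (A : ℝ) (hA : 1 ≤ A)
    (hr : 1 ≤ r) (κ : ℕ) (v : Fin r → Fin (n + 1) → K) (x : Fin (n + 1) → K)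
    (h : mulHeight x ≤ ((A * r ^ d) ^ totalWeight K *
      mulHeight (fun q : Fin r × Fin (n + 1) => v q.1 q.2) ^ d) ^ κ) :
    logHeight x ≤ κ * (d * logHeight (fun q : Fin r × Fin (n + 1) => v q.1 q.2) +
      Module.finrank ℚ K * Real.log (A * r ^ d)) := by
  have hr1 : (1 : ℝ) ≤ r := by exact_mod_cast hr
  have hArd : 1 ≤ A * r ^ d := one_le_mul_of_one_le_of_one_le hA (one_le_pow₀ hr1)
  have h1 := Real.log_le_log (mulHeight_pos x) h
  rw [Real.log_pow, Real.log_mul (by positivity) (by positivity), Real.log_pow, Real.log_pow,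
    totalWeight_eq_finrank] at h1
  rw [logHeight_eq_log_mulHeight, logHeight_eq_log_mulHeight]
  linarith

/-- the Northcott property in projective space -/
theorem northcott_proj (K : Type) [Field K] [NumberField K] (B : ℝ) :
    {P : Projectivization K (Fin (n + 1) → K) | ∃ (x : Fin (n + 1) → K) (h : x ≠ 0),
      P = Projectivization.mk K x h ∧ mulHeight x ≤ B}.Finite := by
  classical
  have h1 : {a : K | mulHeight₁ a ≤ B}.Finite := finite_setOfPred_mulHeight₁_le K B
  have h3 : {y : Fin (n + 1) → K | ∀ i, mulHeight₁ (y i) ≤ B}.Finite := by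
    have := Set.Finite.pi' (fun _ : Fin (n + 1) => h1)
    simpa using this
  refine (h3.biUnion (t := fun y => {P | ∃ (h : y ≠ 0), P = Projectivization.mk K y h})
    ?_).subset ?_
  · intro y _
    apply Set.Subsingleton.finite
    rintro P ⟨h, rfl⟩ Q ⟨h', rfl⟩
    rfl
  · rintro P ⟨x, h, rfl, hx⟩
    obtain ⟨i0, hi0⟩ := Function.ne_iff.1 h
    simp only [Pi.zero_apply] at hi0
    rw [Set.mem_iUnion₂]
    have hy0 : (fun i => x i / x i0) ≠ 0 := by
      intro h0
      have := congrFun h0 i0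
      simp only [Pi.zero_apply] at this
      rw [div_self hi0] at this
      exact one_ne_zero this
    refine ⟨fun i => x i / x i0, fun i => ?_, hy0, ?_⟩
    · rw [mulHeight₁_div_eq_mulHeight]
      refine le_trans ?_ hx
      have h4 : ![x i, x i0] = x ∘ ![i, i0] := by
        funext j
        fin_cases j <;> rfl
      rw [h4]
      exact mulHeight_comp_le _ _
    · rw [Projectivization.mk_eq_mk_iff']
      refine ⟨x i0, ?_⟩
      funext i
      rw [Pi.smul_apply, smul_eq_mul, mul_div_cancel₀ _ hi0]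

end Pool.Agent.TH409.SH
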