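import Mathlib
import Pool.Agent.TH409.SH.NF

set_option autoImplicit false

/-! # Uniruled varieties carry curves with unbounded heights outside every proper subset -/

namespace Pool.Agent.TH409.SH

open Finset Height Height.AdmissibleAbsValues Pool.Agent.H533R3.SL MvPolynomial NumberField
  Pool.Agent.H458.Sp

variable {n r : ℕ}

/-- on a nonconstant curve over a number field the heights are unbounded -/
theorem curve_unbounded {K : Type} [Field K] [NumberField K] (q : Fin (n + 1) → Polynomial K)
    (hq : ∃ i j a b, (q i).eval a * (q j).eval b ≠ (q j).eval a * (q i).eval b)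
    (g : Polynomial K) (hg : g ≠ 0) (B : ℝ) :
    ∃ t : K, (fun i => (q i).eval t) ≠ 0 ∧ g.eval t ≠ 0 ∧
      B < logHeight (fun i => (q i).eval t) := by
  classical
  by_contra hcon
  push Not at hcon
  obtain ⟨i1, i2, a0, b0, hi⟩ := hq
  have hne : ∃ i0, q i0 ≠ 0 := by
    by_contra h
    push Not at h
    apply hi
    rw [h i1, h i2]
  obtain ⟨i0, hi0⟩ := hne
  -- the exceptional parameters
  have hT0 : {t : K | (q i0 * g).eval t = 0}.Finite := by
    have : {t : K | (q i0 * g).eval t = 0} = {t | (q i0 * g).IsRoot t} := rfl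
    rw [this]
    exact Polynomial.finite_setOfPred_isRoot (mul_ne_zero hi0 hg)
  -- for each point, finitely many parameters
  have hfib : ∀ y : Fin (n + 1) → K, y ≠ 0 →
      {t : K | ∀ i j, (q i).eval t * y j = (q j).eval t * y i}.Finite := by
    intro y hy
    have h1 : ∃ i j, q i * Polynomial.C (y j) ≠ q j * Polynomial.C (y i) := by
      by_contra h
      push Not at h
      obtain ⟨j0, hj0⟩ := Function.ne_iff.1 hy
      simp only [Pi.zero_apply] at hj0
      have h2 : ∀ i, q i = q j0 * Polynomial.C (y i / y j0) := by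
        intro i
        have h3 := h i j0
        have h4 : q i * Polynomial.C (y j0) * Polynomial.C (y j0)⁻¹ =
            q j0 * Polynomial.C (y i) * Polynomial.C (y j0)⁻¹ := by rw [h3]
        rw [mul_assoc, mul_assoc, ← Polynomial.C_mul, ← Polynomial.C_mul, mul_inv_cancel₀ hj0,
          Polynomial.C_1, mul_one, ← div_eq_mul_inv] at h4
        exact h4
      apply hi
      rw [h2 i1, h2 i2]
      simp only [Polynomial.eval_mul, Polynomial.eval_C]
      ring
    obtain ⟨i, j, hij⟩ := h1
    refine (Polynomial.finite_setOfPred_isRoot (sub_ne_zero.2 hij)).subset ?_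
    intro t ht
    have := ht i j
    show Polynomial.eval t _ = 0
    rw [Polynomial.eval_sub, Polynomial.eval_mul, Polynomial.eval_mul, Polynomial.eval_C,
      Polynomial.eval_C, this, sub_self]
  -- finitely many points
  have hfin := northcott_proj (n := n) K (Real.exp B)
  have hall : (Set.univ : Set K) ⊆ {t : K | (q i0 * g).eval t = 0} ∪
      ⋃ P ∈ {P : Projectivization K (Fin (n + 1) → K) | ∃ (x : Fin (n + 1) → K) (h : x ≠ 0),
        P = Projectivization.mk K x h ∧ mulHeight x ≤ Real.exp B},
        {t : K | ∀ i j, (q i).eval t * P.rep j = (q j).eval t * P.rep i} := by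
    intro t _
    by_cases h : (q i0 * g).eval t = 0
    · exact Or.inl h
    · right
      rw [Polynomial.eval_mul] at h
      have h1 : (q i0).eval t ≠ 0 := left_ne_zero_of_mul h
      have h2 : g.eval t ≠ 0 := right_ne_zero_of_mul h
      have h3 : (fun i => (q i).eval t) ≠ 0 := by
        intro h0
        exact h1 (congrFun h0 i0)
      have h4 := hcon t h3 h2
      rw [Set.mem_iUnion₂]
      refine ⟨Projectivization.mk K _ h3, ⟨_, h3, rfl, ?_⟩, ?_⟩
      · rw [logHeight_eq_log_mulHeight] at h4
        exact (Real.log_le_iff_le_exp (mulHeight_pos _)).1 h4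
      · obtain ⟨a, ha⟩ := Projectivization.exists_smul_eq_mk_rep K (fun i => (q i).eval t) h3
        intro i j
        rw [← ha]
        show (q i).eval t * ((a : K) • (fun i => (q i).eval t)) j =
          (q j).eval t * ((a : K) • (fun i => (q i).eval t)) i
        simp only [Pi.smul_apply, smul_eq_mul]
        ring
  have huniv : (Set.univ : Set K).Finite := by
    refine (hT0.union (hfin.biUnion ?_)).subset hall
    intro P _
    exact hfib P.rep P.rep_nonzero
  exact Set.infinite_univ huniv

/-- the two forms of nonconstancy -/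
theorem nonconst_of {K : Type} [Field K] [Infinite K] (q : Fin (n + 1) → Polynomial K)
    (hq : ∃ i j, q i * Polynomial.C ((q j).eval 1) ≠ q j * Polynomial.C ((q i).eval 1)) :
    ∃ i j a b, (q i).eval a * (q j).eval b ≠ (q j).eval a * (q i).eval b := by
  by_contra h
  push Not at h
  obtain ⟨i, j, hij⟩ := hq
  apply hij
  apply Polynomial.funext
  intro a
  rw [Polynomial.eval_mul, Polynomial.eval_mul, Polynomial.eval_C, Polynomial.eval_C]
  exact h i j a 1

/-- **Specialisation** of a generic curve. -/
theorem specialise (k : Type) [Field k] [NumberField k] (L : Type) [Field L] [Algebra k L]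
    (p : Fin (n + 1) → Polynomial L) (FF : Set (MvPolynomial (Fin (n + 1)) k))
    (hp : ∀ F ∈ FF, aeval p F = 0) (N : ℕ) (hN : ∀ i m, N ≤ m → (p i).coeff m = 0)
    (hc : ∃ i j, p i * Polynomial.C ((p j).eval 1) ≠ p j * Polynomial.C ((p i).eval 1))
    (G : MvPolynomial (Fin (n + 1)) k) (hG : aeval (fun i => (p i).eval 1) G ≠ 0) :
    ∃ (K : Type) (_ : Field K) (_ : NumberField K) (_ : Algebra k K)
      (v : Fin N → Fin (n + 1) → K),
      (∀ F ∈ FF, aeval (cur v (fun j => (j : ℕ))) F = 0) ∧
      (∃ i j, cur v (fun j => (j : ℕ)) i * Polynomial.C ((cur v (fun j => (j : ℕ)) j).eval 1) ≠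
        cur v (fun j => (j : ℕ)) j * Polynomial.C ((cur v (fun j => (j : ℕ)) i).eval 1)) ∧
      aeval (fun i => (cur v (fun j => (j : ℕ)) i).eval 1) G ≠ 0 := by
  classical
  obtain ⟨i1, i2, hi⟩ := hc
  obtain ⟨w, hw⟩ : ∃ w, (p i1 * Polynomial.C ((p i2).eval 1) -
      p i2 * Polynomial.C ((p i1).eval 1)).coeff w ≠ 0 := by
    by_contra h
    push Not at h
    apply hi
    rw [← sub_eq_zero]
    ext m
    rw [h m, Polynomial.coeff_zero]
  set δ : L := (p i1 * Polynomial.C ((p i2).eval 1) -
      p i2 * Polynomial.C ((p i1).eval 1)).coeff w with hδ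
  set g : L := aeval (fun i => (p i).eval 1) G with hg
  let S : Finset L := (Finset.univ.image (fun q : Fin N × Fin (n + 1) => (p q.2).coeff q.1)) ∪
    {(g * δ)⁻¹}
  let R : Subalgebra k L := Algebra.adjoin k (S : Set L)
  have hft : Algebra.FiniteType k R := by
    rw [← Subalgebra.fg_iff_finiteType]
    exact Subalgebra.fg_adjoin_finset S
  have hcR : ∀ (j : Fin N) (i : Fin (n + 1)), (p i).coeff j ∈ R := by
    intro j i
    apply Algebra.subset_adjoin
    simp only [S, Finset.coe_union, Set.mem_union, Finset.mem_coe]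
    left
    exact Finset.mem_image.2 ⟨(j, i), Finset.mem_univ _, rfl⟩
  have hinvR : (g * δ)⁻¹ ∈ R := by
    apply Algebra.subset_adjoin
    simp only [S, Finset.coe_union, Set.mem_union, Finset.mem_coe]
    right
    exact Finset.mem_singleton_self _
  -- the lifted curve
  let c : Fin N → Fin (n + 1) → R := fun j i => ⟨(p i).coeff j, hcR j i⟩
  have hcp : ∀ i, Polynomial.mapAlgHom R.val (cur c (fun j => (j : ℕ)) i) = p i := by
    intro i
    unfold cur
    rw [map_sum]
    ext m
    rw [Polynomial.finsetSum_coeff]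
    have h1 : ∀ j : Fin N, (Polynomial.mapAlgHom R.val
        (Polynomial.C (c j i) * Polynomial.X ^ (j : ℕ))).coeff m =
        if m = (j : ℕ) then (p i).coeff j else 0 := by
      intro j
      rw [map_mul, map_pow, Polynomial.coe_mapAlgHom, Polynomial.map_C, Polynomial.map_X,
        Polynomial.coeff_C_mul_X_pow]
      rfl
    simp_rw [h1]
    by_cases hm : m < N
    · rw [Finset.sum_eq_single (⟨m, hm⟩ : Fin N)]
      · simp
      · intro j _ hj
        rw [if_neg]
        intro h
        apply hj
        exact Fin.ext h.symm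
      · intro h
        exact absurd (Finset.mem_univ _) h
    · rw [hN i m (by omega)]
      refine Finset.sum_eq_zero fun j _ => ?_
      rw [if_neg]
      have := j.2
      omega
  have hinj : Function.Injective (Polynomial.mapAlgHom R.val) :=
    Polynomial.map_injective _ Subtype.val_injective
  have hFc : ∀ F ∈ FF, aeval (cur c (fun j => (j : ℕ))) F = 0 := by
    intro F hF
    apply hinj
    rw [map_zero, MvPolynomial.comp_aeval_apply]
    rw [← hp F hF]
    congr 2
    funext i
    exact hcp i
  have hev : ∀ i, R.val ((cur c (fun j => (j : ℕ)) i).eval 1) = (p i).eval 1 := by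
    intro i
    rw [← hcp i]
    have h1 : (1 : L) = (R.val : R →+* L) 1 := (map_one _).symm
    rw [Polynomial.coe_mapAlgHom, h1, Polynomial.eval_map, Polynomial.eval₂_at_apply]
    rfl
  -- the maximal ideal
  obtain ⟨m, hm⟩ := Ideal.exists_maximal R
  let K : Type := R ⧸ m
  let _ : Field K := Ideal.Quotient.field m
  let φ : R →ₐ[k] K := Ideal.Quotient.mkₐ k m
  have hφ : Function.Surjective φ := Ideal.Quotient.mkₐ_surjective k m
  have : Algebra.FiniteType k K := Algebra.FiniteType.of_surjective φ hφ
  have : Module.Finite k K := finite_of_finite_type_of_isJacobsonRing k K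
  have : NumberField K := NumberField.of_module_finite k K
  -- nonvanishing
  have hgδ : g * δ ≠ 0 := mul_ne_zero hG hw
  let gR : R := aeval (fun i => (cur c (fun j => (j : ℕ)) i).eval 1) G
  have hgR : R.val gR = g := by
    show R.val (aeval _ G) = _
    rw [MvPolynomial.comp_aeval_apply, hg]
    congr 2
    funext i
    exact hev i
  let δR : R := (cur c (fun j => (j : ℕ)) i1 *
      Polynomial.C ((cur c (fun j => (j : ℕ)) i2).eval 1) -
      cur c (fun j => (j : ℕ)) i2 * Polynomial.C ((cur c (fun j => (j : ℕ)) i1).eval 1)).coeff w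
  have hδR : R.val δR = δ := by
    have h1 : R.val δR = (Polynomial.mapAlgHom R.val (cur c (fun j => (j : ℕ)) i1 *
      Polynomial.C ((cur c (fun j => (j : ℕ)) i2).eval 1) -
      cur c (fun j => (j : ℕ)) i2 *
        Polynomial.C ((cur c (fun j => (j : ℕ)) i1).eval 1))).coeff w := by
      rw [Polynomial.coe_mapAlgHom, Polynomial.coeff_map]
      rfl
    rw [h1, map_sub, map_mul, map_mul, hcp, hcp, hδ]
    congr 3
    · rw [Polynomial.coe_mapAlgHom, Polynomial.map_C]
      congr 1
      exact hev i2
    · rw [Polynomial.coe_mapAlgHom, Polynomial.map_C]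
      congr 1
      exact hev i1
  have hunit : φ gR * φ δR * φ ⟨(g * δ)⁻¹, hinvR⟩ = 1 := by
    rw [← map_mul, ← map_mul]
    have h1 : gR * δR * ⟨(g * δ)⁻¹, hinvR⟩ = 1 := by
      apply Subtype.val_injective
      show R.val gR * R.val δR * (g * δ)⁻¹ = 1
      rw [hgR, hδR]
      exact mul_inv_cancel₀ hgδ
    rw [h1, map_one]
  have hg0 : φ gR ≠ 0 := by
    intro h
    rw [h, zero_mul, zero_mul] at hunit
    exact zero_ne_one hunit
  have hδ0 : φ δR ≠ 0 := by
    intro h
    rw [h, mul_zero, zero_mul] at hunit
    exact zero_ne_one hunit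
  -- the specialised curve
  let v : Fin N → Fin (n + 1) → K := fun j i => φ (c j i)
  have hcv : ∀ i, Polynomial.mapAlgHom φ (cur c (fun j => (j : ℕ)) i) =
      cur v (fun j => (j : ℕ)) i := by
    intro i
    unfold cur
    rw [map_sum]
    refine Finset.sum_congr rfl fun j _ => ?_
    rw [map_mul, map_pow, Polynomial.coe_mapAlgHom, Polynomial.map_C, Polynomial.map_X]
    rfl
  have hevK : ∀ i, φ ((cur c (fun j => (j : ℕ)) i).eval 1) =
      (cur v (fun j => (j : ℕ)) i).eval 1 := by
    intro i
    rw [← hcv i]
    have h1 : (1 : K) = (φ : R →+* K) 1 := (map_one _).symm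
    rw [Polynomial.coe_mapAlgHom, h1, Polynomial.eval_map, Polynomial.eval₂_at_apply]
    rfl
  refine ⟨K, inferInstance, inferInstance, inferInstance, v, ?_, ⟨i1, i2, ?_⟩, ?_⟩
  · intro F hF
    have h1 := congrArg (Polynomial.mapAlgHom φ) (hFc F hF)
    rw [map_zero, MvPolynomial.comp_aeval_apply] at h1
    rw [← h1]
    congr 2
    funext i
    exact (hcv i).symm
  · intro h
    apply hδ0
    have h1 : φ δR = (Polynomial.mapAlgHom φ (cur c (fun j => (j : ℕ)) i1 *
      Polynomial.C ((cur c (fun j => (j : ℕ)) i2).eval 1) -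
      cur c (fun j => (j : ℕ)) i2 *
        Polynomial.C ((cur c (fun j => (j : ℕ)) i1).eval 1))).coeff w := by
      rw [Polynomial.coe_mapAlgHom, Polynomial.coeff_map]
      rfl
    have h2 : Polynomial.mapAlgHom φ (cur c (fun j => (j : ℕ)) i1 *
      Polynomial.C ((cur c (fun j => (j : ℕ)) i2).eval 1) -
      cur c (fun j => (j : ℕ)) i2 *
        Polynomial.C ((cur c (fun j => (j : ℕ)) i1).eval 1)) = 0 := by
      rw [map_sub, map_mul, map_mul, hcv, hcv]
      have h3 : ∀ i, Polynomial.mapAlgHom φ
          (Polynomial.C ((cur c (fun j => (j : ℕ)) i).eval 1)) =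
          Polynomial.C ((cur v (fun j => (j : ℕ)) i).eval 1) := by
        intro i
        rw [Polynomial.coe_mapAlgHom, Polynomial.map_C]
        congr 1
        exact hevK i
      rw [h3, h3, h, sub_self]
    rw [h1, h2, Polynomial.coeff_zero]
  · intro h
    apply hg0
    show φ (aeval _ G) = 0
    rw [MvPolynomial.comp_aeval_apply, ← h]
    congr 2
    funext i
    exact hevK i

end Pool.Agent.TH409.SH
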