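import Mathlib
import Pool.Agent.H458.Sp.Brody
import Pool.Agent.H533R3.SL.Cur

set_option autoImplicit false

/-! # Brody hyperbolic varieties contain no rational curves, over all extensions -/

namespace Pool.Agent.TH409.SH

open Finset MvPolynomial Pool.Agent.H458.Sp Pool.Agent.H533R3.SL

theorem no_curveC {n : ℕ} (GG : Set (MvPolynomial (Fin (n + 1)) ℂ))
    (hom : ∀ G ∈ GG, ∃ e, G.IsHomogeneous e) (hyp : BrodyHyperbolic GG)
    (P : Fin (n + 1) → Polynomial ℂ) (hP0 : ∃ i, (P i).eval 1 ≠ 0)
    (hP : ∀ G ∈ GG, aeval P G = 0) (i j : Fin (n + 1)) :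
    P i * Polynomial.C ((P j).eval 1) = P j * Polynomial.C ((P i).eval 1) := by
  classical
  obtain ⟨i0, hi0⟩ := hP0
  have hPi0 : P i0 ≠ 0 := by
    intro h
    rw [h, Polynomial.eval_zero] at hi0
    exact hi0 rfl
  -- greatest common divisor
  obtain ⟨g, hg⟩ := (IsPrincipalIdealRing.principal (Ideal.span (Set.range P))).principal
  have hg' : Ideal.span (Set.range P) = Ideal.span {g} := hg
  have hdvd : ∀ i, ∃ q, P i = g * q := by
    intro i
    have : P i ∈ Ideal.span (Set.range P) := Ideal.subset_span ⟨i, rfl⟩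
    rw [hg', Ideal.mem_span_singleton] at this
    exact this
  choose q hq using hdvd
  have hg0 : g ≠ 0 := by
    intro h
    apply hPi0
    rw [hq i0, h, zero_mul]
  obtain ⟨a, ha⟩ : ∃ a : Fin (n + 1) → Polynomial ℂ, ∑ i, a i * P i = g := by
    rw [← Ideal.mem_span_range_iff_exists_fun, hg']
    exact Ideal.mem_span_singleton_self g
  have hbez : ∑ i, a i * q i = 1 := by
    apply mul_left_cancel₀ hg0
    rw [Finset.mul_sum, mul_one]
    calc ∑ i, g * (a i * q i) = ∑ i, a i * P i := by
          refine Finset.sum_congr rfl fun i _ => ?_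
          rw [hq i]; ring
      _ = g := ha
  -- the entire curve
  have key : ∀ G ∈ GG, ∀ z : ℂ, MvPolynomial.eval (fun i => (q i).eval z) G = 0 := by
    intro G hG z
    obtain ⟨e, he⟩ := hom G hG
    have h1 : aeval P G = 0 := hP G hG
    have h3 : aeval q G = 0 := by
      have h4 : P = fun i => g * q i := funext hq
      rw [h4, aeval_smul_homog _ he g q] at h1
      rcases mul_eq_zero.1 h1 with h5 | h5
      · exact absurd h5 (pow_ne_zero e hg0)
      · exact h5
    have h6 := congrArg (Polynomial.evalRingHom z) h3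
    rw [map_zero, aeval_def, MvPolynomial.hom_eval₂] at h6
    rw [← h6]
    unfold MvPolynomial.eval
    show MvPolynomial.eval₂ _ _ _ = _
    congr 1
    ext a
    simp
  have hno : ∀ z : ℂ, ∃ i, (q i).eval z ≠ 0 := by
    intro z
    by_contra h
    push Not at h
    have h1 := congrArg (Polynomial.eval z) hbez
    rw [Polynomial.eval_finsetSum, Polynomial.eval_one] at h1
    simp [h] at h1
  have hcon := hyp (fun i z => (q i).eval z) (fun i => (q i).differentiable) hno key
  apply Polynomial.funext
  intro z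
  rw [Polynomial.eval_mul, Polynomial.eval_mul, Polynomial.eval_C, Polynomial.eval_C, hq i, hq j]
  simp only [Polynomial.eval_mul]
  have h2 := hcon z 1 i j
  linear_combination (g.eval z * g.eval 1) * h2

/-- the version over an extension `K` of `k`, for curves with `r` terms -/
theorem no_curveK {n r : ℕ} {R k K : Type} [CommRing R] [Field k] [CharZero k] [Field K]
    [Algebra k K] [Algebra.IsAlgebraic k K]
    (ι : R →+* k) (σ : k →+* ℂ) (FF : Set (MvPolynomial (Fin (n + 1)) R))
    (hom : ∀ F ∈ FF, ∃ e, F.IsHomogeneous e)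
    (hyp : BrodyHyperbolic ((MvPolynomial.map (σ.comp ι)) '' FF))
    (c : Fin r → Fin (n + 1) → K) (l : Fin r → ℕ) (x : Fin (n + 1) → K) (hx0 : x ≠ 0)
    (hx : ∀ i, x i = ∑ j, c j i)
    (hp : ∀ F' ∈ (MvPolynomial.map ((algebraMap k K).comp ι)) '' FF, aeval (cur c l) F' = 0)
    (i j : Fin (n + 1)) :
    cur c l i * Polynomial.C (x j) = cur c l j * Polynomial.C (x i) := by
  classical
  letI : Algebra k ℂ := σ.toAlgebra
  let τ : K →ₐ[k] ℂ := IsAlgClosed.lift
  have hτinj : Function.Injective τ.toRingHom := τ.toRingHom.injective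
  have hev : ∀ i, ((cur c l i).map τ.toRingHom).eval 1 = τ (x i) := by
    intro i
    have h1 : (1 : ℂ) = τ.toRingHom 1 := (map_one _).symm
    rw [h1, Polynomial.eval_map, Polynomial.eval₂_at_apply, cur_eval_one, ← hx i]
    rfl
  obtain ⟨i0, hi0⟩ := Function.ne_iff.1 hx0
  have hcomp : (τ.toRingHom.comp (algebraMap k K)).comp ι = σ.comp ι := by
    congr 1
    exact τ.comp_algebraMap
  have h := no_curveC _ (by
      rintro _ ⟨F, hF, rfl⟩
      obtain ⟨e, he⟩ := hom F hF
      exact ⟨e, he.map _⟩) hyp (fun i => (cur c l i).map τ.toRingHom) ⟨i0, by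
        rw [hev]
        intro h
        apply hi0
        exact hτinj (by rw [Pi.zero_apply, map_zero]; exact h)⟩ (by
      rintro _ ⟨F, hF, rfl⟩
      have h1 := hp _ ⟨F, hF, rfl⟩
      have h2 := congrArg (Polynomial.mapRingHom τ.toRingHom) h1
      rw [map_zero, aeval_def, MvPolynomial.hom_eval₂, MvPolynomial.eval₂_map] at h2
      rw [aeval_def, MvPolynomial.eval₂_map, ← h2, ← hcomp]
      congr 1
      ext a
      simp) i j
  rw [hev, hev] at h
  apply Polynomial.map_injective τ.toRingHom hτinj
  rw [Polynomial.map_mul, Polynomial.map_mul, Polynomial.map_C, Polynomial.map_C]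
  exact h

end Pool.Agent.TH409.SH
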