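import Mathlib
import Pool.Agent.TH409.SH.NF
import Pool.Agent.TH409.SH.Bro

set_option autoImplicit false

/-! # Bounded height for sparse points -/

namespace Pool.Agent.TH409.SH

open Finset Height Height.AdmissibleAbsValues Pool.Agent.H533R3.SL MvPolynomial NumberField
  Pool.Agent.H458.Sp

variable {n r : ℕ}

/-- the explicit bound: `(1 + 8 (4 d) ^ r) (d h + D log (A r ^ d))` -/
noncomputable def bd (d r : ℕ) (A h : ℝ) (D : ℕ) : ℝ :=
  (1 + 8 * (4 * d) ^ r) * (d * h + D * Real.log (A * r ^ d))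

/-- **Bounded height, varieties that are not uniruled.** -/
theorem nonuniruled_bound (k : Type) [Field k] [NumberField k] (n : ℕ)
    (FF : Finset (MvPolynomial (Fin (n + 1)) (𝓞 k))) (d : ℕ) (hd : 1 ≤ d) (A : ℝ) (hA : 1 ≤ A)
    (hFF : ∀ F ∈ FF, (∃ e, e ≤ d ∧ F.IsHomogeneous e) ∧ nrm F ≤ A)
    (hprime : (idealK FF).IsPrime) (hnu : ¬ Uniruled (idealK FF)) (r : ℕ) (hr : 1 ≤ r) :
    ∃ G : MvPolynomial (Fin (n + 1)) k, (∃ e, G.IsHomogeneous e) ∧ G ∉ idealK FF ∧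
      ∀ (K : Type) [Field K] [NumberField K] [Algebra k K] (t : K) (l : Fin r → ℕ)
        (v : Fin r → Fin (n + 1) → K) (x : Fin (n + 1) → K), x ≠ 0 →
        (∀ i, x i = ∑ j, t ^ (l j) * v j i) →
        (∀ F ∈ FF, aeval x (MvPolynomial.map (algebraMap (𝓞 k) k) F) = 0) →
        aeval x G ≠ 0 →
        logHeight x ≤ bd d r A (logHeight (fun q : Fin r × Fin (n + 1) => v q.1 q.2))
          (Module.finrank ℚ K) := by
  classical
  obtain ⟨G, hG1, hG2, hG3⟩ := exists_hyper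
    ((MvPolynomial.map (algebraMap (𝓞 k) k)) ''
      (FF : Set (MvPolynomial (Fin (n + 1)) (𝓞 k)))) hprime hnu d hd (by
      rintro _ ⟨F, hF, rfl⟩
      obtain ⟨⟨e, he, hFe⟩, _⟩ := hFF F hF
      exact ⟨e, he, hFe.map _⟩) r
  refine ⟨G, hG1, hG2, ?_⟩
  intro K _ _ _ t l v x hx0 hx hzero hGx
  have hz : ∀ F' ∈ (MvPolynomial.map ((algebraMap k K).comp (algebraMap (𝓞 k) k))) ''
      (FF : Set (MvPolynomial (Fin (n + 1)) (𝓞 k))), aeval x F' = 0 := by
    rintro _ ⟨F, hF, rfl⟩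
    rw [← MvPolynomial.map_map, aeval_map_algebraMap]
    exact hzero F hF
  rcases dichK _ d hd A hA (hyps (k := k) (K := K)
    (FF : Set (MvPolynomial (Fin (n + 1)) (𝓞 k))) d A (fun F hF => hFF F hF))
    hr t l v x hx0 hx hz with
    ⟨lam, hcur, i, i', hc⟩ | h
  · exfalso
    apply hGx
    have hxf : x = fun i => ∑ j, t ^ (l j) * v j i := funext hx
    rw [hxf]
    refine hG3 K (fun j i => t ^ (l j) * v j i) lam ?_ ⟨i, i', ?_⟩
    · rintro _ ⟨F, hF, rfl⟩
      have h1 := hcur _ ⟨F, hF, rfl⟩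
      rw [← MvPolynomial.map_map, aeval_map_algebraMap] at h1
      exact h1
    · rw [← hx i', ← hx i]
      exact hc
  · have h2 := log_bound d A hA hr _ v x h
    refine h2.trans (le_of_eq ?_)
    unfold bd
    push_cast
    ring

/-- **Bounded height, Brody hyperbolic varieties.** -/
theorem brody_bound (k : Type) [Field k] [NumberField k] (σ : k →+* ℂ) (n : ℕ)
    (FF : Set (MvPolynomial (Fin (n + 1)) (𝓞 k))) (d : ℕ) (hd : 1 ≤ d) (A : ℝ) (hA : 1 ≤ A)
    (hFF : ∀ F ∈ FF, (∃ e, e ≤ d ∧ F.IsHomogeneous e) ∧ nrm F ≤ A)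
    (hyp : BrodyHyperbolic ((MvPolynomial.map (σ.comp (algebraMap (𝓞 k) k))) '' FF))
    (r : ℕ) (hr : 1 ≤ r) (K : Type) [Field K] [NumberField K] [Algebra k K] (t : K)
    (l : Fin r → ℕ) (v : Fin r → Fin (n + 1) → K) (x : Fin (n + 1) → K) (hx0 : x ≠ 0)
    (hx : ∀ i, x i = ∑ j, t ^ (l j) * v j i)
    (hzero : ∀ F ∈ FF, aeval x (MvPolynomial.map (algebraMap (𝓞 k) k) F) = 0) :
    logHeight x ≤ bd d r A (logHeight (fun q : Fin r × Fin (n + 1) => v q.1 q.2))
      (Module.finrank ℚ K) := by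
  classical
  have hz : ∀ F' ∈ (MvPolynomial.map ((algebraMap k K).comp (algebraMap (𝓞 k) k))) '' FF,
      aeval x F' = 0 := by
    rintro _ ⟨F, hF, rfl⟩
    rw [← MvPolynomial.map_map, aeval_map_algebraMap]
    exact hzero F hF
  rcases dichK _ d hd A hA (hyps (K := K) FF d A hFF) hr t l v x hx0 hx hz with
    ⟨lam, hcur, i, i', hc⟩ | h
  · exfalso
    have : Module.Finite k K := Module.Finite.of_restrictScalars_finite ℚ k K
    exact hc (no_curveK (algebraMap (𝓞 k) k) σ FF (fun F hF => by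
      obtain ⟨⟨e, _, he⟩, _⟩ := hFF F hF
      exact ⟨e, he⟩) hyp (fun j i => t ^ (l j) * v j i) lam x hx0 hx hcur i i')
  · have h2 := log_bound d A hA hr _ v x h
    refine h2.trans (le_of_eq ?_)
    unfold bd
    push_cast
    ring

end Pool.Agent.TH409.SH
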