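import Mathlib
import Pool.Agent.TH409.SH.Fwd
import Pool.Agent.TH409.SH.Conv

set_option autoImplicit false

/-! # Bounded height for sparse points: final statements -/

namespace Pool.Agent.TH409.SH

open Finset Height Height.AdmissibleAbsValues Pool.Agent.H533R3.SL MvPolynomial NumberField
  Pool.Agent.H458.Sp

/-- The absolute logarithmic (Weil) height of the point of projective space with homogeneous
coordinates `x` in the number field `K`. -/
noncomputable def ah (K : Type) [Field K] [NumberField K] {ι : Type} (x : ι → K) : ℝ :=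
  logHeight x / Module.finrank ℚ K

/-- `x ≠ 0` is the value at `T = t` of the rational curve `T ↦ ∑ T ^ (l j) v_j` with `r` terms. -/
def OnSparse {n r : ℕ} {K : Type} [Field K] (t : K) (l : Fin r → ℕ) (v : Fin r → Fin (n + 1) → K)
    (x : Fin (n + 1) → K) : Prop :=
  x ≠ 0 ∧ ∀ i, x i = ∑ j, t ^ (l j) * v j i

/-- the vector `x` is a zero of all the forms of `FF` -/
def IsZero {n : ℕ} {k : Type} [Field k] (FF : Set (MvPolynomial (Fin (n + 1)) (𝓞 k)))
    {K : Type} [Field K] [Algebra k K] (x : Fin (n + 1) → K) : Prop :=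
  ∀ F ∈ FF, aeval x (MvPolynomial.map (algebraMap (𝓞 k) k) F) = 0

variable {n r : ℕ}

theorem finrank_pos' (K : Type) [Field K] [NumberField K] :
    (0 : ℝ) < Module.finrank ℚ K := by
  exact_mod_cast Module.finrank_pos

theorem ah_bound {K : Type} [Field K] [NumberField K] (d : ℕ) (A : ℝ) (x : Fin (n + 1) → K)
    (h : ℝ)
    (hx : logHeight x ≤ bd d r A h (Module.finrank ℚ K)) :
    ah K x ≤ (1 + 8 * (4 * d) ^ r) *
      (d * (h / Module.finrank ℚ K) + Real.log (A * r ^ d)) := by
  have hD := finrank_pos' K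
  unfold ah
  rw [div_le_iff₀ hD]
  refine hx.trans (le_of_eq ?_)
  unfold bd
  field_simp

/-- finiteness from bounded height -/
theorem finite_of_bound (K : Type) [Field K] [NumberField K] (C : ℝ)
    (S : Set (Projectivization K (Fin (n + 1) → K)))
    (hS : ∀ P ∈ S, ∃ (x : Fin (n + 1) → K) (h : x ≠ 0), P = Projectivization.mk K x h ∧
      ah K x ≤ C) : S.Finite := by
  refine (northcott_proj K (Real.exp (C * Module.finrank ℚ K))).subset ?_
  intro P hP
  obtain ⟨x, h, hPx, hx⟩ := hS P hP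
  refine ⟨x, h, hPx, ?_⟩
  have hD := finrank_pos' K
  unfold ah at hx
  rw [div_le_iff₀ hD, logHeight_eq_log_mulHeight] at hx
  exact (Real.log_le_iff_le_exp (mulHeight_pos _)).1 hx

/-- **Varieties that are not uniruled.** -/
theorem nonuniruled_main (k : Type) [Field k] [NumberField k] (n : ℕ)
    (FF : Finset (MvPolynomial (Fin (n + 1)) (𝓞 k))) (d : ℕ) (hd : 1 ≤ d) (A : ℝ) (hA : 1 ≤ A)
    (hFF : ∀ F ∈ FF, (∃ e, e ≤ d ∧ F.IsHomogeneous e) ∧ nrm F ≤ A)
    (hprime : (idealK FF).IsPrime) :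
    (¬ Uniruled (idealK FF) → ∀ r : ℕ, 1 ≤ r →
      ∃ G : MvPolynomial (Fin (n + 1)) k, (∃ e, G.IsHomogeneous e) ∧ G ∉ idealK FF ∧
        (∀ (K : Type) [Field K] [NumberField K] [Algebra k K] (t : K) (l : Fin r → ℕ)
          (v : Fin r → Fin (n + 1) → K) (x : Fin (n + 1) → K),
          OnSparse t l v x → IsZero (FF : Set (MvPolynomial (Fin (n + 1)) (𝓞 k))) x →
          aeval x G ≠ 0 →
          ah K x ≤ (1 + 8 * (4 * d) ^ r) *
            (d * ah K (fun q : Fin r × Fin (n + 1) => v q.1 q.2) + Real.log (A * r ^ d))) ∧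
        ∀ (K : Type) [Field K] [NumberField K] [Algebra k K] (B : ℝ),
          {P : Projectivization K (Fin (n + 1) → K) | ∃ (t : K) (l : Fin r → ℕ)
            (v : Fin r → Fin (n + 1) → K) (x : Fin (n + 1) → K) (h : x ≠ 0),
            P = Projectivization.mk K x h ∧ OnSparse t l v x ∧
            IsZero (FF : Set (MvPolynomial (Fin (n + 1)) (𝓞 k))) x ∧ aeval x G ≠ 0 ∧
            ah K (fun q : Fin r × Fin (n + 1) => v q.1 q.2) ≤ B}.Finite) ∧
    (Uniruled (idealK FF) → ∃ r : ℕ, 1 ≤ r ∧
      ∀ G : MvPolynomial (Fin (n + 1)) k, (∃ e, G.IsHomogeneous e) → G ∉ idealK FF →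
        ∃ (K : Type) (_ : Field K) (_ : NumberField K) (_ : Algebra k K) (l : Fin r → ℕ)
          (v : Fin r → Fin (n + 1) → K), ∀ B : ℝ, ∃ (t : K) (x : Fin (n + 1) → K),
          OnSparse t l v x ∧ IsZero (FF : Set (MvPolynomial (Fin (n + 1)) (𝓞 k))) x ∧
          aeval x G ≠ 0 ∧ B < ah K x) := by
  constructor
  · intro hnu r hr
    obtain ⟨G, hG1, hG2, hG3⟩ := nonuniruled_bound k n FF d hd A hA hFF hprime hnu r hr
    have hmain : ∀ (K : Type) [Field K] [NumberField K] [Algebra k K] (t : K) (l : Fin r → ℕ)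
          (v : Fin r → Fin (n + 1) → K) (x : Fin (n + 1) → K),
          OnSparse t l v x → IsZero (FF : Set (MvPolynomial (Fin (n + 1)) (𝓞 k))) x →
          aeval x G ≠ 0 →
          ah K x ≤ (1 + 8 * (4 * d) ^ r) *
            (d * ah K (fun q : Fin r × Fin (n + 1) => v q.1 q.2) + Real.log (A * r ^ d)) := by
      intro K _ _ _ t l v x hx hz hG
      exact ah_bound d A x _ (hG3 K t l v x hx.1 hx.2 hz hG)
    refine ⟨G, hG1, hG2, hmain, ?_⟩
    intro K _ _ _ B
    refine finite_of_bound K ((1 + 8 * (4 * d) ^ r) * (d * B + Real.log (A * r ^ d))) _ ?_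
    rintro P ⟨t, l, v, x, h, hP, hx, hz, hG, hB⟩
    refine ⟨x, h, hP, (hmain K t l v x hx hz hG).trans ?_⟩
    gcongr
  · rintro ⟨L, iL, iA, p, hp1, hp2, hp3⟩
    set N : ℕ := Finset.univ.sup (fun i => (p i).natDegree) + 1 with hN
    have hNc : ∀ i m, N ≤ m → (p i).coeff m = 0 := by
      intro i m hm
      apply Polynomial.coeff_eq_zero_of_natDegree_lt
      have := Finset.le_sup (f := fun i => (p i).natDegree) (Finset.mem_univ i)
      omega
    refine ⟨N, by omega, ?_⟩
    intro G hG1 hG2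
    obtain ⟨K, iK, iN, iAK, v, h1, h2, h3⟩ := specialise k L p
      ((MvPolynomial.map (algebraMap (𝓞 k) k)) ''
        (FF : Set (MvPolynomial (Fin (n + 1)) (𝓞 k)))) (by
        intro F hF
        exact hp1 F (Ideal.subset_span hF)) N hNc hp3 G (hp2 G hG1 hG2)
    refine ⟨K, iK, iN, iAK, fun j => (j : ℕ), v, ?_⟩
    intro B
    have hevG : ∀ t : K, (aeval (cur v (fun j => (j : ℕ))) G).eval t =
        aeval (fun i => (cur v (fun j => (j : ℕ)) i).eval t) G := by
      intro t
      have := MvPolynomial.comp_aeval_apply (R := k) (cur v (fun j => (j : ℕ)))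
        ((Polynomial.aeval t : Polynomial K →ₐ[K] K).restrictScalars k) G
      exact this
    have hevF : ∀ F : MvPolynomial (Fin (n + 1)) k,
        aeval (cur v (fun j => (j : ℕ))) F = 0 → ∀ t : K,
        aeval (fun i => (cur v (fun j => (j : ℕ)) i).eval t) F = 0 := by
      intro F hF t
      have := MvPolynomial.comp_aeval_apply (R := k) (cur v (fun j => (j : ℕ)))
        ((Polynomial.aeval t : Polynomial K →ₐ[K] K).restrictScalars k) F
      rw [hF, map_zero] at this
      exact this.symm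
    obtain ⟨t, ht1, ht2, ht3⟩ := curve_unbounded (cur v (fun j => (j : ℕ)))
      (nonconst_of _ h2) (aeval (cur v (fun j => (j : ℕ))) G) (by
        intro h
        apply h3
        rw [← hevG, h, Polynomial.eval_zero]) (B * Module.finrank ℚ K)
    refine ⟨t, fun i => (cur v (fun j => (j : ℕ)) i).eval t, ⟨ht1, ?_⟩, ?_, ?_, ?_⟩
    · intro i
      show (cur v (fun j : Fin N => (j : ℕ)) i).eval t = _
      unfold cur
      rw [Polynomial.eval_finsetSum]
      refine Finset.sum_congr rfl fun j _ => ?_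
      rw [Polynomial.eval_mul, Polynomial.eval_C, Polynomial.eval_pow, Polynomial.eval_X, mul_comm]
    · intro F hF
      exact hevF _ (h1 _ ⟨F, hF, rfl⟩) t
    · rw [← hevG]
      exact ht2
    · unfold ah
      rw [lt_div_iff₀ (finrank_pos' K)]
      exact ht3

/-- **Brody hyperbolic varieties, and varieties without rational curves.** -/
theorem brody_main (k : Type) [Field k] [NumberField k] (n : ℕ)
    (FF : Set (MvPolynomial (Fin (n + 1)) (𝓞 k))) (d : ℕ) (hd : 1 ≤ d) (A : ℝ) (hA : 1 ≤ A)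
    (hFF : ∀ F ∈ FF, (∃ e, e ≤ d ∧ F.IsHomogeneous e) ∧ nrm F ≤ A) (σ : k →+* ℂ)
    (hyp : BrodyHyperbolic ((MvPolynomial.map (σ.comp (algebraMap (𝓞 k) k))) '' FF))
    (r : ℕ) (hr : 1 ≤ r) :
    (∀ (K : Type) [Field K] [NumberField K] [Algebra k K] (t : K) (l : Fin r → ℕ)
      (v : Fin r → Fin (n + 1) → K) (x : Fin (n + 1) → K), OnSparse t l v x → IsZero FF x →
      ah K x ≤ (1 + 8 * (4 * d) ^ r) *
        (d * ah K (fun q : Fin r × Fin (n + 1) => v q.1 q.2) + Real.log (A * r ^ d))) ∧
    ∀ (K : Type) [Field K] [NumberField K] [Algebra k K] (B : ℝ),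
      {P : Projectivization K (Fin (n + 1) → K) | ∃ (t : K) (l : Fin r → ℕ)
        (v : Fin r → Fin (n + 1) → K) (x : Fin (n + 1) → K) (h : x ≠ 0),
        P = Projectivization.mk K x h ∧ OnSparse t l v x ∧ IsZero FF x ∧
        ah K (fun q : Fin r × Fin (n + 1) => v q.1 q.2) ≤ B}.Finite := by
  have hmain : ∀ (K : Type) [Field K] [NumberField K] [Algebra k K] (t : K) (l : Fin r → ℕ)
      (v : Fin r → Fin (n + 1) → K) (x : Fin (n + 1) → K), OnSparse t l v x → IsZero FF x →
      ah K x ≤ (1 + 8 * (4 * d) ^ r) *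
        (d * ah K (fun q : Fin r × Fin (n + 1) => v q.1 q.2) + Real.log (A * r ^ d)) := by
    intro K _ _ _ t l v x hx hz
    exact ah_bound d A x _ (brody_bound k σ n FF d hd A hA hFF hyp r hr K t l v x hx.1 hx.2 hz)
  refine ⟨hmain, ?_⟩
  intro K _ _ _ B
  refine finite_of_bound K ((1 + 8 * (4 * d) ^ r) * (d * B + Real.log (A * r ^ d))) _ ?_
  rintro P ⟨t, l, v, x, h, hP, hx, hz, hB⟩
  refine ⟨x, h, hP, (hmain K t l v x hx hz).trans ?_⟩
  gcongr

/-- No nonconstant rational curve over any number field containing `k`. -/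
def NoRatCurve {n : ℕ} {k : Type} [Field k] (FF : Set (MvPolynomial (Fin (n + 1)) (𝓞 k))) :
    Prop :=
  ∀ (K : Type) [Field K] [NumberField K] [Algebra k K] (q : Fin (n + 1) → Polynomial K),
    (∀ F ∈ FF, aeval q (MvPolynomial.map (algebraMap (𝓞 k) k) F) = 0) →
    ∀ i j (a b : K), (q i).eval a * (q j).eval b = (q j).eval a * (q i).eval b

/-- **Characterisation of the absence of rational curves by heights.** -/
theorem ratcurve_iff (k : Type) [Field k] [NumberField k] (n : ℕ)
    (FF : Set (MvPolynomial (Fin (n + 1)) (𝓞 k))) (d : ℕ) (hd : 1 ≤ d) (A : ℝ) (hA : 1 ≤ A)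
    (hFF : ∀ F ∈ FF, (∃ e, e ≤ d ∧ F.IsHomogeneous e) ∧ nrm F ≤ A) :
    NoRatCurve FF ↔ ∀ (r : ℕ) (B : ℝ), ∃ C : ℝ,
      ∀ (K : Type) [Field K] [NumberField K] [Algebra k K] (t : K) (l : Fin r → ℕ)
      (v : Fin r → Fin (n + 1) → K) (x : Fin (n + 1) → K), OnSparse t l v x → IsZero FF x →
      ah K (fun q : Fin r × Fin (n + 1) => v q.1 q.2) ≤ B → ah K x ≤ C := by
  constructor
  · intro hno r B
    refine ⟨(1 + 8 * (4 * d) ^ r) * (d * B + Real.log (A * r ^ d)), ?_⟩
    intro K _ _ _ t l v x hx hz hB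
    have hr : 1 ≤ r := by
      rcases Nat.eq_zero_or_pos r with h | h
      · exfalso
        subst h
        apply hx.1
        funext i
        rw [hx.2 i]
        simp
      · exact h
    have hz' : ∀ F' ∈ (MvPolynomial.map ((algebraMap k K).comp (algebraMap (𝓞 k) k))) '' FF,
        aeval x F' = 0 := by
      rintro _ ⟨F, hF, rfl⟩
      rw [← MvPolynomial.map_map, aeval_map_algebraMap]
      exact hz F hF
    rcases dichK _ d hd A hA (hyps (K := K) FF d A hFF) hr t l v x hx.1 hx.2 hz' with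
      ⟨lam, hcur, i, i', hc⟩ | h
    · exfalso
      apply hc
      have h1 := hno K (cur (fun j i => t ^ (l j) * v j i) lam) (by
        intro F hF
        have h1 := hcur _ ⟨F, hF, rfl⟩
        rw [← MvPolynomial.map_map, aeval_map_algebraMap] at h1
        exact h1)
      apply Polynomial.funext
      intro a
      have h2 := h1 i i' a 1
      rw [cur_eval_one, cur_eval_one, ← hx.2 i, ← hx.2 i'] at h2
      rw [Polynomial.eval_mul, Polynomial.eval_mul, Polynomial.eval_C, Polynomial.eval_C]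
      exact h2
    · have h2 := log_bound d A hA hr _ v x h
      have h3 := ah_bound (r := r) d A x (logHeight (fun q : Fin r × Fin (n + 1) => v q.1 q.2))
        (h2.trans (le_of_eq (by unfold bd; push_cast; ring)))
      refine h3.trans ?_
      have hB' : logHeight (fun q : Fin r × Fin (n + 1) => v q.1 q.2) / Module.finrank ℚ K ≤ B := hB
      gcongr
  · intro h K _ _ _ q hq i j a b
    by_contra hcon
    -- the number of terms
    set N : ℕ := Finset.univ.sup (fun i => (q i).natDegree) + 1 with hN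
    have hqc : ∀ (i : Fin (n + 1)) (t : K),
        (q i).eval t = ∑ m : Fin N, t ^ (m : ℕ) * (q i).coeff m := by
      intro i t
      have hlt : (q i).natDegree < N := by
        have := Finset.le_sup (f := fun i => (q i).natDegree) (Finset.mem_univ i)
        omega
      rw [Polynomial.eval_eq_sum_range' hlt, Finset.sum_range]
      refine Finset.sum_congr rfl fun m _ => mul_comm _ _
    obtain ⟨C, hC⟩ := h N (ah K (fun p : Fin N × Fin (n + 1) => (q p.2).coeff p.1))
    obtain ⟨t, ht1, _, ht3⟩ := curve_unbounded q ⟨i, j, a, b, hcon⟩ 1 one_ne_zero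
      (C * Module.finrank ℚ K)
    have h1 := hC K t (fun m => (m : ℕ)) (fun m i => (q i).coeff m) (fun i => (q i).eval t)
      ⟨ht1, fun i => hqc i t⟩ (by
        intro F hF
        have := MvPolynomial.comp_aeval_apply (R := k) q
          ((Polynomial.aeval t : Polynomial K →ₐ[K] K).restrictScalars k)
          (MvPolynomial.map (algebraMap (𝓞 k) k) F)
        rw [hq F hF, map_zero] at this
        exact this.symm) le_rfl
    unfold ah at h1
    rw [div_le_iff₀ (finrank_pos' K)] at h1
    linarith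

end Pool.Agent.TH409.SH
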