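import Mathlib
import Pool.Agent.TH409.SH.Fin

set_option autoImplicit false

/-! # Brody hyperbolic varieties contain no rational curves; explicit bounds -/

namespace Pool.Agent.TH409.SH

open Finset Height Height.AdmissibleAbsValues Pool.Agent.H533R3.SL MvPolynomial NumberField
  Pool.Agent.H458.Sp

variable {n r : ℕ}

theorem no_curveC' {n : ℕ} (GG : Set (MvPolynomial (Fin (n + 1)) ℂ))
    (hom : ∀ G ∈ GG, ∃ e, G.IsHomogeneous e) (hyp : BrodyHyperbolic GG)
    (P : Fin (n + 1) → Polynomial ℂ) (hP : ∀ G ∈ GG, aeval P G = 0) (i j : Fin (n + 1))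
    (z w : ℂ) : (P i).eval z * (P j).eval w = (P j).eval z * (P i).eval w := by
  classical
  by_cases hP0 : ∀ i, P i = 0
  · rw [hP0 i, hP0 j]
  push Not at hP0
  obtain ⟨i0, hPi0⟩ := hP0
  -- greatest common divisor
  obtain ⟨g, hg⟩ := (IsPrincipalIdealRing.principal (Ideal.span (Set.range P))).principal
  have hg' : Ideal.span (Set.range P) = Ideal.span {g} := hg
  have hdvd : ∀ i, ∃ q, P i = g * q := by
    intro i
    have : P i ∈ Ideal.span (Set.range P) := Ideal.subset_span ⟨i, rfl⟩
    rw [hg', Ideal.mem_span_singleton] at this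
    exact this
  choose q hq using hdvd
  have hg0 : g ≠ 0 := by
    intro h
    apply hPi0
    rw [hq i0, h, zero_mul]
  obtain ⟨a, ha⟩ : ∃ a : Fin (n + 1) → Polynomial ℂ, ∑ i, a i * P i = g := by
    rw [← Ideal.mem_span_range_iff_exists_fun, hg']
    exact Ideal.mem_span_singleton_self g
  have hbez : ∑ i, a i * q i = 1 := by
    apply mul_left_cancel₀ hg0
    rw [Finset.mul_sum, mul_one]
    calc ∑ i, g * (a i * q i) = ∑ i, a i * P i := by
          refine Finset.sum_congr rfl fun i _ => ?_
          rw [hq i]; ring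
      _ = g := ha
  -- the entire curve
  have key : ∀ G ∈ GG, ∀ z : ℂ, MvPolynomial.eval (fun i => (q i).eval z) G = 0 := by
    intro G hG z
    obtain ⟨e, he⟩ := hom G hG
    have h1 : aeval P G = 0 := hP G hG
    have h3 : aeval q G = 0 := by
      have h4 : P = fun i => g * q i := funext hq
      rw [h4, aeval_smul_homog _ he g q] at h1
      rcases mul_eq_zero.1 h1 with h5 | h5
      · exact absurd h5 (pow_ne_zero e hg0)
      · exact h5
    have h6 := congrArg (Polynomial.evalRingHom z) h3
    rw [map_zero, aeval_def, MvPolynomial.hom_eval₂] at h6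
    rw [← h6]
    unfold MvPolynomial.eval
    show MvPolynomial.eval₂ _ _ _ = _
    congr 1
    ext a
    simp
  have hno : ∀ z : ℂ, ∃ i, (q i).eval z ≠ 0 := by
    intro z
    by_contra h
    push Not at h
    have h1 := congrArg (Polynomial.eval z) hbez
    rw [Polynomial.eval_finsetSum, Polynomial.eval_one] at h1
    simp [h] at h1
  have hcon := hyp (fun i z => (q i).eval z) (fun i => (q i).differentiable) hno key
  rw [hq i, hq j]
  simp only [Polynomial.eval_mul]
  have h2 := hcon z w i j
  linear_combination (g.eval z * g.eval w) * h2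

/-- Brody hyperbolic varieties contain no rational curve over a number field -/
theorem brody_noRat {n : ℕ} {k : Type} [Field k] [NumberField k] (σ : k →+* ℂ)
    (FF : Set (MvPolynomial (Fin (n + 1)) (𝓞 k)))
    (hom : ∀ F ∈ FF, ∃ e, F.IsHomogeneous e)
    (hyp : BrodyHyperbolic ((MvPolynomial.map (σ.comp (algebraMap (𝓞 k) k))) '' FF)) :
    NoRatCurve FF := by
  intro K _ _ _ q hq i j a b
  have : Module.Finite k K := Module.Finite.of_restrictScalars_finite ℚ k K
  let _ : Algebra k ℂ := σ.toAlgebra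
  let τ : K →ₐ[k] ℂ := IsAlgClosed.lift
  have hτinj : Function.Injective τ.toRingHom := τ.toRingHom.injective
  have hcomp : τ.toRingHom.comp (algebraMap k K) = σ := τ.comp_algebraMap
  have hev : ∀ i (a : K), ((q i).map τ.toRingHom).eval (τ.toRingHom a) =
      τ.toRingHom ((q i).eval a) := by
    intro i a
    rw [Polynomial.eval_map, Polynomial.eval₂_at_apply]
  have h := no_curveC' _ (by
      rintro _ ⟨F, hF, rfl⟩
      obtain ⟨e, he⟩ := hom F hF
      exact ⟨e, he.map _⟩) hyp (fun i => (q i).map τ.toRingHom) (by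
      rintro _ ⟨F, hF, rfl⟩
      have h1 := hq F hF
      have h2 := congrArg (Polynomial.mapRingHom τ.toRingHom) h1
      rw [map_zero, aeval_def, MvPolynomial.hom_eval₂, MvPolynomial.eval₂_map] at h2
      rw [aeval_def, MvPolynomial.eval₂_map, ← h2]
      congr 1
      rw [← hcomp]
      ext a
      simp) i j (τ.toRingHom a) (τ.toRingHom b)
  rw [hev, hev, hev, hev, ← map_mul, ← map_mul] at h
  exact hτinj h

/-- **Explicit bound for varieties without rational curves.** -/
theorem noRat_main (k : Type) [Field k] [NumberField k] (n : ℕ)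
    (FF : Set (MvPolynomial (Fin (n + 1)) (𝓞 k))) (d : ℕ) (hd : 1 ≤ d) (A : ℝ) (hA : 1 ≤ A)
    (hFF : ∀ F ∈ FF, (∃ e, e ≤ d ∧ F.IsHomogeneous e) ∧ nrm F ≤ A) (hno : NoRatCurve FF)
    (r : ℕ) (hr : 1 ≤ r) :
    (∀ (K : Type) [Field K] [NumberField K] [Algebra k K] (t : K) (l : Fin r → ℕ)
      (v : Fin r → Fin (n + 1) → K) (x : Fin (n + 1) → K), OnSparse t l v x → IsZero FF x →
      ah K x ≤ (1 + 8 * (4 * d) ^ r) *
        (d * ah K (fun q : Fin r × Fin (n + 1) => v q.1 q.2) + Real.log (A * r ^ d))) ∧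
    ∀ (K : Type) [Field K] [NumberField K] [Algebra k K] (B : ℝ),
      {P : Projectivization K (Fin (n + 1) → K) | ∃ (t : K) (l : Fin r → ℕ)
        (v : Fin r → Fin (n + 1) → K) (x : Fin (n + 1) → K) (h : x ≠ 0),
        P = Projectivization.mk K x h ∧ OnSparse t l v x ∧ IsZero FF x ∧
        ah K (fun q : Fin r × Fin (n + 1) => v q.1 q.2) ≤ B}.Finite := by
  have hmain : ∀ (K : Type) [Field K] [NumberField K] [Algebra k K] (t : K) (l : Fin r → ℕ)
      (v : Fin r → Fin (n + 1) → K) (x : Fin (n + 1) → K), OnSparse t l v x → IsZero FF x →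
      ah K x ≤ (1 + 8 * (4 * d) ^ r) *
        (d * ah K (fun q : Fin r × Fin (n + 1) => v q.1 q.2) + Real.log (A * r ^ d)) := by
    intro K _ _ _ t l v x hx hz
    have hz' : ∀ F' ∈ (MvPolynomial.map ((algebraMap k K).comp (algebraMap (𝓞 k) k))) '' FF,
        aeval x F' = 0 := by
      rintro _ ⟨F, hF, rfl⟩
      rw [← MvPolynomial.map_map, aeval_map_algebraMap]
      exact hz F hF
    rcases dichK _ d hd A hA (hyps (K := K) FF d A hFF) hr t l v x hx.1 hx.2 hz' with
      ⟨lam, hcur, i, i', hc⟩ | h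
    · exfalso
      apply hc
      have h1 := hno K (cur (fun j i => t ^ (l j) * v j i) lam) (by
        intro F hF
        have h1 := hcur _ ⟨F, hF, rfl⟩
        rw [← MvPolynomial.map_map, aeval_map_algebraMap] at h1
        exact h1)
      apply Polynomial.funext
      intro a
      have h2 := h1 i i' a 1
      rw [cur_eval_one, cur_eval_one, ← hx.2 i, ← hx.2 i'] at h2
      rw [Polynomial.eval_mul, Polynomial.eval_mul, Polynomial.eval_C, Polynomial.eval_C]
      exact h2
    · have h2 := log_bound d A hA hr _ v x h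
      exact ah_bound (r := r) d A x (logHeight (fun q : Fin r × Fin (n + 1) => v q.1 q.2))
        (h2.trans (le_of_eq (by unfold bd; push_cast; ring)))
  refine ⟨hmain, ?_⟩
  intro K _ _ _ B
  refine finite_of_bound K ((1 + 8 * (4 * d) ^ r) * (d * B + Real.log (A * r ^ d))) _ ?_
  rintro P ⟨t, l, v, x, h, hP, hx, hz, hB⟩
  refine ⟨x, h, hP, (hmain K t l v x hx hz).trans ?_⟩
  gcongr

/-- if there is a rational curve, the heights are unbounded on it -/
theorem ratcurve_unbounded (k : Type) [Field k] [NumberField k] (n : ℕ)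
    (FF : Set (MvPolynomial (Fin (n + 1)) (𝓞 k))) (h : ¬ NoRatCurve FF) :
    ∃ (r : ℕ) (K : Type) (_ : Field K) (_ : NumberField K) (_ : Algebra k K) (l : Fin r → ℕ)
      (v : Fin r → Fin (n + 1) → K), ∀ B : ℝ, ∃ (t : K) (x : Fin (n + 1) → K),
      OnSparse t l v x ∧ IsZero FF x ∧ B < ah K x := by
  unfold NoRatCurve at h
  push Not at h
  obtain ⟨K, iK, iN, iA, q, hq, i, j, a, b, hcon⟩ := h
  set N : ℕ := Finset.univ.sup (fun i => (q i).natDegree) + 1 with hN
  have hqc : ∀ (i : Fin (n + 1)) (t : K),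
      (q i).eval t = ∑ m : Fin N, t ^ (m : ℕ) * (q i).coeff m := by
    intro i t
    have hlt : (q i).natDegree < N := by
      have := Finset.le_sup (f := fun i => (q i).natDegree) (Finset.mem_univ i)
      omega
    rw [Polynomial.eval_eq_sum_range' hlt, Finset.sum_range]
    refine Finset.sum_congr rfl fun m _ => mul_comm _ _
  refine ⟨N, K, iK, iN, iA, fun m => (m : ℕ), fun m i => (q i).coeff m, fun B => ?_⟩
  obtain ⟨t, ht1, _, ht3⟩ := curve_unbounded q ⟨i, j, a, b, hcon⟩ 1 one_ne_zero
    (B * Module.finrank ℚ K)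
  refine ⟨t, fun i => (q i).eval t, ⟨ht1, fun i => hqc i t⟩, ?_, ?_⟩
  · intro F hF
    have := MvPolynomial.comp_aeval_apply (R := k) q
      ((Polynomial.aeval t : Polynomial K →ₐ[K] K).restrictScalars k)
      (MvPolynomial.map (algebraMap (𝓞 k) k) F)
    rw [hq F hF, map_zero] at this
    exact this.symm
  · unfold ah
    rw [lt_div_iff₀ (finrank_pos' K)]
    exact ht3

end Pool.Agent.TH409.SH
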