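import Mathlib
import Pool.Agent.TH409.SH.Fin
import Pool.Agent.W235.RM.Final

set_option autoImplicit false

/-! # Sparse points of affine varieties, in any algebraic base -/

namespace Pool.Agent.TH409.SH

open Finset Height Height.AdmissibleAbsValues Pool.Agent.H533R3.SL MvPolynomial NumberField
  Pool.Agent.H458.Sp Pool.Agent.W235.RM
open Pool.Agent.H159R3.Exp (Laur)

/-- The absolute logarithmic Weil height of the point with affine coordinates `x` in the number
field `L`, that is, the height of `(1 : x)`. -/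
noncomputable def aff (L : Type) [Field L] [NumberField L] {ι : Type} (x : ι → L) : ℝ :=
  ah L (fun o : Option ι => o.elim 1 x)

/-- `x = ∑ t ^ (m j) v_j` with `t ≠ 0` and exponents in `ℤ`: the point `x` is the value at `T = t`
of the map `T ↦ ∑ T ^ (m j) v_j` from the punctured line to affine space. -/
def SparseAt {L : Type} [Field L] {n r : ℕ} (t : L) (m : Fin r → ℤ) (v : Fin r → Fin n → L)
    (x : Fin n → L) : Prop :=
  t ≠ 0 ∧ ∀ i, x i = ∑ j, t ^ (m j) * v j i

/-- the height of the coefficients of the homogenised curve -/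
theorem height_v' {L : Type} [Field L] [NumberField L] {n r : ℕ} (v : Fin r → Fin n → L) :
    mulHeight (fun q : Fin (r + 1) × Fin (n + 1) =>
      ((Fin.cons (Fin.cons 1 (fun _ => 0)) (fun j => Fin.cons 0 (v j)) :
        Fin (r + 1) → Fin (n + 1) → L) q.1 q.2)) ≤
    mulHeight (fun o : Option (Fin r × Fin n) => o.elim 1 (fun q => v q.1 q.2)) := by
  classical
  set v' : Fin (r + 1) → Fin (n + 1) → L :=
    Fin.cons (Fin.cons 1 (fun _ => 0)) (fun j => Fin.cons 0 (v j)) with hv'
  have h1 : (fun q : Fin (r + 1) × Fin (n + 1) => v' q.1 q.2) ≠ 0 := by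
    intro h
    have := congrFun h (0, 0)
    simp [hv'] at this
  have h2 : (fun o : Option (Fin r × Fin n) => o.elim (1 : L) (fun q => v q.1 q.2)) ≠ 0 := by
    intro h
    have := congrFun h none
    simp at this
  rw [← PP_iSup h1, ← PP_iSup h2]
  have hle : ∀ w : AbsoluteValue L ℝ, (⨆ q : Fin (r + 1) × Fin (n + 1), w (v' q.1 q.2)) ≤
      ⨆ o : Option (Fin r × Fin n), w (o.elim (1 : L) (fun q => v q.1 q.2)) := by
    intro w
    have h0 : 0 ≤ ⨆ o : Option (Fin r × Fin n), w (o.elim (1 : L) (fun q => v q.1 q.2)) :=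
      Real.iSup_nonneg_of_nonnegHomClass w _
    refine ciSup_le fun q => ?_
    obtain ⟨j, i⟩ := q
    refine Fin.cases ?_ (fun j => ?_) j
    · refine Fin.cases ?_ (fun i => ?_) i
      · simp only [hv', Fin.cons_zero]
        exact Finite.le_ciSup_of_le
          (f := fun o : Option (Fin r × Fin n) => w (o.elim (1 : L) (fun q => v q.1 q.2)))
          none le_rfl
      · simp only [hv', Fin.cons_zero, Fin.cons_succ]
        rw [map_zero]
        exact h0
    · refine Fin.cases ?_ (fun i => ?_) i
      · simp only [hv', Fin.cons_zero, Fin.cons_succ]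
        rw [map_zero]
        exact h0
      · simp only [hv', Fin.cons_succ]
        exact Finite.le_ciSup_of_le
          (f := fun o : Option (Fin r × Fin n) => w (o.elim (1 : L) (fun q => v q.1 q.2)))
          (some (j, i)) le_rfl
  have := PP_le (fun w : AbsoluteValue L ℝ => ⨆ q : Fin (r + 1) × Fin (n + 1), w (v' q.1 q.2))
    (fun w => ⨆ o : Option (Fin r × Fin n), w (o.elim (1 : L) (fun q => v q.1 q.2))) 1
    (FM_iSup h1) (FM_iSup h2) (fun w => Real.iSup_nonneg_of_nonnegHomClass w _)
    (fun w _ => by rw [one_mul]; exact hle w) (fun w _ => hle w)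
  rw [one_pow, one_mul] at this
  exact this

/-- affine and projective heights -/
theorem height_opt {L : Type} [Field L] [NumberField L] {n : ℕ} (x : Fin n → L) (a : L)
    (ha : a ≠ 0) (z : Fin (n + 1) → L) (h0 : z 0 = a) (hs : ∀ i : Fin n, z i.succ = a * x i) :
    mulHeight (fun o : Option (Fin n) => o.elim 1 x) ≤ mulHeight z := by
  have h1 : (fun o : Option (Fin n) => o.elim 1 x) =
      a⁻¹ • (z ∘ (fun o : Option (Fin n) => o.elim 0 Fin.succ)) := by
    funext o
    cases o with
    | none => simp [h0, inv_mul_cancel₀ ha]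
    | some i => simp [hs, ← mul_assoc, inv_mul_cancel₀ ha]
  rw [h1, mulHeight_smul_eq_mulHeight _ (inv_ne_zero ha)]
  exact mulHeight_comp_le _ _

/-- **Dichotomy for affine varieties.** -/
theorem dichH {K : Type} [Field K] [NumberField K] {ι : Type} {n : ℕ}
    (F : ι → MvPolynomial (Fin n) (𝓞 K)) (d : ℕ) (hd : 1 ≤ d) (A : ℝ) (hA : 1 ≤ A)
    (hF : ∀ i, (F i).totalDegree ≤ d ∧ nrm (F i) ≤ A)
    (L : Type) [Field L] [NumberField L] [Algebra K L] (r : ℕ) (t : L) (m : Fin r → ℤ)
    (v : Fin r → Fin n → L)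
    (x : Fin n → L) (hx0 : ∀ i, eval₂ ((algebraMap K L).comp (algebraMap (𝓞 K) K)) x (F i) = 0)
    (hs : SparseAt t m v x) :
    aff L x ≤ (1 + 8 * (4 * d) ^ (r + 1)) *
      (d * aff L (fun q : Fin r × Fin n => v q.1 q.2) + Real.log (A * (r + 1) ^ d)) ∨
    ∃ w : L → Fin n → L, (∀ j, Laur fun s => w s j) ∧
      (∀ i s, s ≠ 0 → eval₂ ((algebraMap K L).comp (algebraMap (𝓞 K) K)) (w s) (F i) = 0) ∧
      w 1 = x ∧ ∃ (k : ℕ) (j : Fin n), w (2 ^ k) j ≠ w 1 j := by
  classical
  obtain ⟨ht, hx⟩ := hs
  set φ : 𝓞 K →+* L := (algebraMap K L).comp (algebraMap (𝓞 K) K) with hφ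
  -- clear the denominators
  obtain ⟨a, ha⟩ : ∃ a : ℕ, ∀ j, 0 ≤ m j + a := by
    refine ⟨∑ j, (m j).natAbs, fun j => ?_⟩
    have h1 : (m j).natAbs ≤ ∑ j, (m j).natAbs :=
      Finset.single_le_sum (f := fun j => (m j).natAbs) (fun _ _ => Nat.zero_le _)
        (Finset.mem_univ j)
    omega
  let m' : Fin (r + 1) → ℕ := Fin.cons a (fun j => (m j + a).toNat)
  let v' : Fin (r + 1) → Fin (n + 1) → L :=
    Fin.cons (Fin.cons 1 (fun _ => 0)) (fun j => Fin.cons 0 (v j))
  let z : Fin (n + 1) → L := fun i => ∑ j, t ^ (m' j) * v' j i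
  have hz0 : z 0 = t ^ a := by
    simp [z, m', v', Fin.sum_univ_succ]
  have hzs : ∀ i : Fin n, z i.succ = t ^ a * x i := by
    intro i
    rw [hx i, Finset.mul_sum]
    simp only [z, m', v', Fin.sum_univ_succ, Fin.cons_zero, Fin.cons_succ, mul_zero, zero_add]
    refine Finset.sum_congr rfl fun j _ => ?_
    rw [← mul_assoc]
    congr 1
    rw [← zpow_natCast, ← zpow_natCast, ← zpow_add₀ ht, Int.toNat_of_nonneg (ha j), add_comm]
  have hzK : z = (Fin.cons (t ^ a) (fun i => t ^ a * x i) : Fin (n + 1) → L) := by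
    funext i
    refine Fin.cases ?_ (fun i => ?_) i
    · rw [hz0]; simp
    · rw [hzs]; simp
  have hz : z ≠ 0 := by
    intro h
    have h1 := congrFun h 0
    rw [hz0] at h1
    exact pow_ne_zero a ht h1
  let FF : Set (MvPolynomial (Fin (n + 1)) (𝓞 K)) := Set.range fun i => hmg d (F i)
  have hFK : ∀ F' ∈ FF, (∃ e, e ≤ d ∧ F'.IsHomogeneous e) ∧ nrm F' ≤ A := by
    rintro _ ⟨i, rfl⟩
    exact ⟨⟨d, le_rfl, hmg_homog d (F i) (hF i).1⟩, (hmg_nrm d (F i)).trans (hF i).2⟩
  have hzero : ∀ F' ∈ (MvPolynomial.map φ) '' FF, aeval z F' = 0 := by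
    rintro _ ⟨_, ⟨i, rfl⟩, rfl⟩
    rw [aeval_def, eval₂_map]
    show eval₂ φ z (hmg d (F i)) = 0
    rw [hzK, hmg_eval φ d (F i) (hF i).1, hx0, mul_zero]
  rcases dichK _ d hd A hA (hyps (k := K) (K := L) FF d A hFK) (r := r + 1) (by omega) t m' v' z hz
    (fun i => rfl) hzero with ⟨lam, hcur, i, i', hc⟩ | hb
  · right
    let P : Fin (n + 1) → Polynomial L := fun i => cur (fun j i => t ^ (m' j) * v' j i) lam i
    have hP0 : ∀ s : L, (P 0).eval s = t ^ a * s ^ (lam 0) := by
      intro s
      simp only [P]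
      unfold cur
      rw [Fin.sum_univ_succ]
      simp [m', v']
    have hP1 : ∀ i, (P i).eval 1 = z i := by
      intro i
      exact cur_eval_one _ lam i
    have hP0' : ∀ s : L, s ≠ 0 → (P 0).eval s ≠ 0 := by
      intro s hs
      rw [hP0]
      exact mul_ne_zero (pow_ne_zero _ ht) (pow_ne_zero _ hs)
    let w : L → Fin n → L := fun s j => (P j.succ).eval s / (P 0).eval s
    have hw1 : w 1 = x := by
      funext j
      simp only [w]
      rw [hP1, hP1, hz0, hzs]
      have := pow_ne_zero a ht
      field_simp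
    refine ⟨w, ?_, ?_, hw1, ?_⟩
    · intro j
      refine ⟨lam 0, Polynomial.C (t ^ a)⁻¹ * P j.succ, fun s hs => ?_⟩
      simp only [w]
      rw [hP0, Polynomial.eval_mul, Polynomial.eval_C]
      have h1 : t ^ a ≠ 0 := pow_ne_zero _ ht
      have h2 : s ^ lam 0 ≠ 0 := pow_ne_zero _ hs
      field_simp
    · intro i s hs
      have h1 := hcur _ ⟨_, ⟨i, rfl⟩, rfl⟩
      have h2 := congrArg (fun q : Polynomial L => q.eval s) h1
      simp only [Polynomial.eval_zero] at h2
      have h3 : (aeval (cur (fun j i => t ^ (m' j) * v' j i) lam)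
          (map φ (hmg d (F i)))).eval s = eval₂ φ (fun i => (P i).eval s) (hmg d (F i)) := by
        show Polynomial.evalRingHom s (aeval (cur (fun j i => t ^ (m' j) * v' j i) lam)
          (map φ (hmg d (F i)))) = _
        rw [aeval_def, eval₂_map, MvPolynomial.hom_eval₂]
        congr 1
        refine RingHom.ext fun a => ?_
        show (algebraMap L (Polynomial L) (φ a)).eval s = φ a
        rw [Polynomial.algebraMap_apply, Polynomial.eval_C]
        rfl
      rw [h3] at h2
      have h4 : (fun i => (P i).eval s) = (Fin.cons ((P 0).eval s)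
          (fun i => (P 0).eval s * w s i) : Fin (n + 1) → L) := by
        funext i
        refine Fin.cases ?_ (fun i => ?_) i
        · simp
        · simp only [Fin.cons_succ, w]
          rw [mul_div_cancel₀ _ (hP0' s hs)]
      rw [h4, hmg_eval φ d (F i) (hF i).1] at h2
      exact (mul_eq_zero.mp h2).resolve_left (pow_ne_zero _ (hP0' s hs))
    · by_contra hcon
      push Not at hcon
      -- then all coordinates are constant
      have h1 : ∀ j : Fin (n + 1), P j * Polynomial.C (z 0) = P 0 * Polynomial.C (z j) := by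
        intro j
        refine Fin.cases rfl (fun j => ?_) j
        rw [← sub_eq_zero]
        by_contra hne
        have h2 := Polynomial.finite_setOfPred_isRoot hne
        have h3 : Function.Injective fun n : ℕ => (2 : L) ^ n := by
          intro a b hab
          have h5 : ((2 ^ a : ℕ) : L) = ((2 ^ b : ℕ) : L) := by
            push_cast
            exact hab
          exact Nat.pow_right_injective (le_refl 2) (Nat.cast_injective h5)
        apply Set.infinite_range_of_injective h3
        refine h2.subset ?_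
        rintro _ ⟨k, rfl⟩
        have h5 := hcon k j
        rw [hw1] at h5
        simp only [w] at h5
        rw [div_eq_iff (hP0' _ (pow_ne_zero _ two_ne_zero))] at h5
        simp only [Set.mem_ofPred_eq, Polynomial.IsRoot.def, Polynomial.eval_sub,
          Polynomial.eval_mul, Polynomial.eval_C]
        rw [h5, hzs, hz0]
        ring
      apply hc
      have h7 : z 0 ≠ 0 := by
        rw [hz0]
        exact pow_ne_zero _ ht
      have h9 : (Polynomial.C (z 0) : Polynomial L) ≠ 0 := Polynomial.C_ne_zero.mpr h7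
      apply mul_left_cancel₀ h9
      show Polynomial.C (z 0) * (P i * Polynomial.C (z i')) =
        Polynomial.C (z 0) * (P i' * Polynomial.C (z i))
      linear_combination Polynomial.C (z i') * h1 i - Polynomial.C (z i) * h1 i'
  · -- bounded height
    left
    have h1 := log_bound d A hA (r := r + 1) (by omega) _ v' z hb
    have h2 : logHeight (fun o : Option (Fin n) => o.elim 1 x) ≤ logHeight z := by
      rw [logHeight_eq_log_mulHeight, logHeight_eq_log_mulHeight]
      exact Real.log_le_log (mulHeight_pos _) (height_opt x (t ^ a) (pow_ne_zero _ ht) z hz0 hzs)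
    have h3 : logHeight (fun q : Fin (r + 1) × Fin (n + 1) => v' q.1 q.2) ≤
        logHeight (fun o : Option (Fin r × Fin n) => o.elim 1 (fun q => v q.1 q.2)) := by
      rw [logHeight_eq_log_mulHeight, logHeight_eq_log_mulHeight]
      exact Real.log_le_log (mulHeight_pos _) (height_v' v)
    have hD := finrank_pos' L
    unfold aff ah
    rw [div_le_iff₀ hD]
    refine h2.trans (h1.trans ?_)
    push_cast
    have h4 : (d : ℝ) * logHeight (fun q : Fin (r + 1) × Fin (n + 1) => v' q.1 q.2) ≤
        d * logHeight (fun o : Option (Fin r × Fin n) => o.elim 1 (fun q => v q.1 q.2)) :=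
      mul_le_mul_of_nonneg_left h3 (Nat.cast_nonneg _)
    have h5 : (0 : ℝ) ≤ 1 + 8 * (4 * d) ^ (r + 1) := by positivity
    calc (1 + 8 * (4 * (d : ℝ)) ^ (r + 1)) *
          (d * logHeight (fun q : Fin (r + 1) × Fin (n + 1) => v' q.1 q.2) +
            Module.finrank ℚ L * Real.log (A * (r + 1) ^ d)) ≤
        (1 + 8 * (4 * (d : ℝ)) ^ (r + 1)) *
          (d * logHeight (fun o : Option (Fin r × Fin n) => o.elim 1 (fun q => v q.1 q.2)) +
            Module.finrank ℚ L * Real.log (A * (r + 1) ^ d)) := by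
          apply mul_le_mul_of_nonneg_left _ h5
          linarith
      _ = _ := by
          field_simp

end Pool.Agent.TH409.SH
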