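import Mathlib
import Pool.Agent.TH409.SH.Aff

set_option autoImplicit false

/-! # Curves in affine varieties and heights of sparse points: the equivalence -/

namespace Pool.Agent.TH409.SH

open Finset Height Height.AdmissibleAbsValues Pool.Agent.H533R3.SL MvPolynomial NumberField
  Pool.Agent.H458.Sp Pool.Agent.W235.RM
open Pool.Agent.H159R3.Exp (Laur ExpCurvesIn FinitelyManyIntegral)

section defs

variable {K : Type} [Field K] {ι κ : Type} {n : ℕ}

/-- `x` is a point of `V` (zeros of `F`) outside `V'` (zeros of `G`) over the extension `L`. -/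
def OffPt (F : ι → MvPolynomial (Fin n) (𝓞 K)) (G : κ → MvPolynomial (Fin n) (𝓞 K))
    {L : Type} [Field L] [Algebra K L] (x : Fin n → L) : Prop :=
  (∀ i, eval₂ ((algebraMap K L).comp (algebraMap (𝓞 K) K)) x (F i) = 0) ∧
    ∃ l, eval₂ ((algebraMap K L).comp (algebraMap (𝓞 K) K)) x (G l) ≠ 0

/-- The points of `V` outside `V'`, over any number field `L`, which are a combination
`∑ t ^ (m j) v_j` of `r` powers of some nonzero `t ∈ L` satisfy an explicit height bound, linear in
the height of the `v_j`. -/
def HeightLinear [NumberField K] (F : ι → MvPolynomial (Fin n) (𝓞 K))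
    (G : κ → MvPolynomial (Fin n) (𝓞 K)) : Prop :=
  ∀ (d : ℕ) (A : ℝ), 1 ≤ d → 1 ≤ A → (∀ i, (F i).totalDegree ≤ d ∧ nrm (F i) ≤ A) →
    ∀ (L : Type) [Field L] [NumberField L] [Algebra K L] (r : ℕ) (t : L) (m : Fin r → ℤ)
      (v : Fin r → Fin n → L) (x : Fin n → L), SparseAt t m v x → OffPt F G x →
      aff L x ≤ (1 + 8 * (4 * d) ^ (r + 1)) *
        (d * aff L (fun q : Fin r × Fin n => v q.1 q.2) + Real.log (A * (r + 1) ^ d))

/-- The points of `V` outside `V'`, over any number field `L`, which are a combination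
`∑ t ^ (m j) v_j` of `r` powers of some nonzero `t ∈ L`, with `v_j` of bounded height, are of
bounded height. -/
def HeightBounded (F : ι → MvPolynomial (Fin n) (𝓞 K))
    (G : κ → MvPolynomial (Fin n) (𝓞 K)) : Prop :=
  ∀ (r : ℕ) (B : ℝ), ∃ C : ℝ,
    ∀ (L : Type) [Field L] [NumberField L] [Algebra K L] (t : L) (m : Fin r → ℤ)
      (v : Fin r → Fin n → L) (x : Fin n → L), SparseAt t m v x → OffPt F G x →
      aff L (fun q : Fin r × Fin n => v q.1 q.2) ≤ B → aff L x ≤ C

/-- For each number field `L`, the points of `V(L)` outside `V'` which are a combination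
`∑ t ^ (m j) v_j` of `r` powers of some nonzero `t ∈ L`, with `v_j` of bounded height, are finite
in number. -/
def SparseFiniteAlg (F : ι → MvPolynomial (Fin n) (𝓞 K))
    (G : κ → MvPolynomial (Fin n) (𝓞 K)) : Prop :=
  ∀ (L : Type) [Field L] [NumberField L] [Algebra K L] (r : ℕ) (B : ℝ),
    {x : Fin n → L | OffPt F G x ∧ ∃ (t : L) (m : Fin r → ℤ) (v : Fin r → Fin n → L),
      SparseAt t m v x ∧ aff L (fun q : Fin r × Fin n => v q.1 q.2) ≤ B}.Finite

end defs

variable {K : Type} [Field K] [NumberField K] {ι κ : Type} {n : ℕ}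
  (σ : K →+* ℂ) (F : ι → MvPolynomial (Fin n) (𝓞 K)) (G : κ → MvPolynomial (Fin n) (𝓞 K))

theorem northcott_aff (L : Type) [Field L] [NumberField L] (n : ℕ) (C : ℝ) :
    {x : Fin n → L | aff L x ≤ C}.Finite := by
  classical
  have h1 : {a : L | mulHeight₁ a ≤ Real.exp (C * Module.finrank ℚ L)}.Finite :=
    finite_setOfPred_mulHeight₁_le L _
  have h3 : {y : Fin n → L | ∀ i, mulHeight₁ (y i) ≤ Real.exp (C * Module.finrank ℚ L)}.Finite := by
    have := Set.Finite.pi' (fun _ : Fin n => h1)
    simpa using this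
  refine h3.subset ?_
  intro x hx i
  have hD := finrank_pos' L
  have hx' : aff L x ≤ C := hx
  unfold aff ah at hx'
  rw [div_le_iff₀ hD, logHeight_eq_log_mulHeight] at hx'
  refine le_trans ?_ ((Real.log_le_iff_le_exp (mulHeight_pos _)).1 hx')
  rw [mulHeight₁_eq_mulHeight]
  have h4 : ![x i, 1] = (fun o : Option (Fin n) => o.elim (1 : L) x) ∘ ![some i, none] := by
    funext j
    fin_cases j <;> rfl
  rw [h4]
  exact mulHeight_comp_le _ _

/-- height of integral vectors -/
theorem aff_integral (L : Type) [Field L] [NumberField L] {τ : Type} [Finite τ] (B : ℝ)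
    (hB : 1 ≤ B) (u : τ → 𝓞 L) (hu : ∀ q, hs (u q) ≤ B) :
    aff L (fun q => algebraMap (𝓞 L) L (u q)) ≤ Real.log B := by
  classical
  have h2 : (fun o : Option τ => o.elim (1 : L) (fun q => algebraMap (𝓞 L) L (u q))) ≠ 0 := by
    intro h
    have := congrFun h none
    simp at this
  have hone : FM (fun _ : AbsoluteValue L ℝ => (1 : ℝ)) := by
    unfold FM
    simp [Function.HasFiniteMulSupport]
  have hP1 : PP (fun _ : AbsoluteValue L ℝ => (1 : ℝ)) = 1 := by
    unfold PP
    simp
  have h3 := PP_le (fun w : AbsoluteValue L ℝ =>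
      ⨆ o : Option τ, w (o.elim (1 : L) (fun q => algebraMap (𝓞 L) L (u q))))
    (fun _ => 1) B (FM_iSup h2) hone (fun w => Real.iSup_nonneg_of_nonnegHomClass w _)
    (by
      intro w hw
      rw [mul_one]
      refine ciSup_le fun o => ?_
      cases o with
      | none =>
        simp only [Option.elim_none]
        rw [w.map_one]
        exact hB
      | some q => exact (arch_le_hs w hw (u q)).trans (hu q))
    (by
      intro w hw
      refine ciSup_le fun o => ?_
      cases o with
      | none =>
        simp only [Option.elim_none]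
        rw [w.map_one]
      | some q => exact nonarch_le_one w hw (u q))
  rw [PP_iSup h2, hP1, mul_one, totalWeight_eq_finrank] at h3
  have hD := finrank_pos' L
  unfold aff ah
  rw [div_le_iff₀ hD, logHeight_eq_log_mulHeight]
  have h4 := Real.log_le_log (mulHeight_pos _) h3
  rw [Real.log_pow] at h4
  linarith

theorem linear_of_gm (h : GmCurvesIn σ F G) : HeightLinear F G := by
  intro d A hd hA hF L _ _ _ r t m v x hs hx
  rcases dichH F d hd A hA hF L r t m v x hx.1 hs with h1 | ⟨w, hw, hwF, hw1, hk⟩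
  · exact h1
  · exfalso
    refine not_gm_of_hasLaurent σ F G ⟨L, inferInstance, inferInstance, inferInstance, w, hw, hwF,
      ?_, hk⟩ h
    rw [hw1]
    exact hx.2

theorem bounded_of_linear [Finite ι] (h : HeightLinear F G) : HeightBounded F G := by
  classical
  have := Fintype.ofFinite ι
  intro r B
  set d : ℕ := ∑ i, (F i).totalDegree + 1 with hd
  set A : ℝ := ∑ i, nrm (F i) + 1 with hA
  have hF : ∀ i, (F i).totalDegree ≤ d ∧ nrm (F i) ≤ A := by
    intro i
    constructor
    · have := Finset.single_le_sum (f := fun i => (F i).totalDegree) (fun _ _ => Nat.zero_le _)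
        (Finset.mem_univ i)
      omega
    · have := Finset.single_le_sum (f := fun i => nrm (F i))
        (fun _ _ => nrm_nonneg _) (Finset.mem_univ i)
      linarith
  have hA1 : 1 ≤ A := by
    have : 0 ≤ ∑ i, nrm (F i) := Finset.sum_nonneg fun _ _ => nrm_nonneg _
    linarith
  refine ⟨(1 + 8 * (4 * d) ^ (r + 1)) * (d * B + Real.log (A * (r + 1) ^ d)), ?_⟩
  intro L _ _ _ t m v x hs hx hB
  refine (h d A (by omega) hA1 hF L r t m v x hs hx).trans ?_
  gcongr

omit [NumberField K] in
theorem finite_of_bounded (h : HeightBounded F G) : SparseFiniteAlg F G := by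
  intro L _ _ _ r B
  obtain ⟨C, hC⟩ := h r B
  refine (northcott_aff L n C).subset ?_
  rintro x ⟨hx, t, m, v, hs, hB⟩
  exact hC L t m v x hs hx hB

omit [NumberField K] in
theorem sparse_of_alg (h : SparseFiniteAlg F G) : SparseFinite F G := by
  intro L _ _ _ b r B hb
  refine (h L r (Real.log (max B 1))).subset ?_
  rintro x ⟨hxF, hxG, m, v, hv, hx⟩
  refine ⟨⟨hxF, hxG⟩, (b : L), m, fun j i => algebraMap (𝓞 L) L (v j i), ⟨?_, hx⟩, ?_⟩
  · have : b ≠ 0 := by omega
    exact_mod_cast this
  · exact aff_integral L (max B 1) (le_max_right _ _) (fun q : Fin r × Fin n => v q.1 q.2)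
      fun q => (hv q.1 q.2).trans (le_max_left _ _)

/-- **the equivalence** -/
theorem tfaeH [Finite ι] : List.TFAE [ExpCurvesIn σ F G, GmCurvesIn σ F G, HeightLinear F G,
    HeightBounded F G, SparseFiniteAlg F G] := by
  have h0 := tfae σ F G
  tfae_have 1 ↔ 2 := h0.out 0 1
  tfae_have 2 → 3 := linear_of_gm σ F G
  tfae_have 3 → 4 := bounded_of_linear F G
  tfae_have 4 → 5 := finite_of_bounded F G
  tfae_have 5 → 1 := fun h => (h0.out 2 0).1 (sparse_of_alg F G h)
  tfae_finish

/-- condition (i) implies the height bounds -/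
theorem heights_of_entire [Finite ι] (h : EntireCurvesIn σ F G) : HeightLinear F G :=
  linear_of_gm σ F G (((tfae σ F G).out 0 1).1 (exp_of_entire σ F G h))

/-- condition (ii) implies the height bounds -/
theorem heights_of_integral [Finite ι] (h : FinitelyManyIntegral F G) : HeightLinear F G := by
  obtain ⟨σ⟩ : Nonempty (K →+* ℂ) := inferInstance
  have h0 := tfae σ F G
  have h1 : RecurrenceFinite F G := rec_of_integral F G h
  have h2 : GmCurvesIn σ F G := (h0.out 5 1).1 h1
  exact linear_of_gm σ F G h2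

end Pool.Agent.TH409.SH
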